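import Pool.Agent.Lib.MP_a98e84_gt.TG.Defs

/-!
# TASK TG A0: calculus for curves of matrices (`HD` is entrywise differentiation)

Everything is entrywise: products are finite sums (`Matrix.mul_apply`, `HasDerivAt.fun_sum`, `HasDerivAt.mul`), `star` is `HasDerivAt.star` or `HasDerivAt.conj`... (for `ℝ → ℂ`: `HasDerivAt.star`), the real part is
`Complex.reCLM.hasFDerivAt.comp_hasDerivAt` .
(`HD.inv`) First the entries of `(F s)⁻¹` are differentiable at `t`: `(F s)⁻¹ = Ring.inverse (det (F s)) • adjugate (F s)`, the determinant and the entries of the adjugate are polynomials of the entries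
(`Matrix.det_apply`, `Matrix.adjugate_apply`); so `HD (fun s => (F s)⁻¹) K t` for some `K`. The determinant is not `0` near `t`, so `F s * (F s)⁻¹ = 1` near `t`, and the product rule gives
`F' * (F t)⁻¹ + F t * K = 0`.
-/

set_option autoImplicit false

namespace Pool.Agent.MP_a98e84_gt.TG

open Matrix
open scoped ComplexOrder

variable {l m n : Type*}

theorem HD.const (A : Matrix m n ℂ) (t : ℝ) : HD (fun _ => A) 0 t := by
  exact fun i j => hasDerivAt_const t (A i j)

theorem HD.congr {F G : ℝ → Matrix m n ℂ} {F' : Matrix m n ℂ} {t : ℝ} (h : HD F F' t) (hFG : ∀ s, G s = F s) : HD G F' t := by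
  intro i j
  have := h i j
  simpa only [hFG] using this

theorem HD.congr_deriv {F : ℝ → Matrix m n ℂ} {F' G' : Matrix m n ℂ} {t : ℝ} (h : HD F F' t) (h' : F' = G') : HD F G' t := by
  exact h' ▸ h

theorem HD.add {F G : ℝ → Matrix m n ℂ} {F' G' : Matrix m n ℂ} {t : ℝ} (hF : HD F F' t) (hG : HD G G' t) :
    HD (fun s => F s + G s) (F' + G') t := by
  exact fun i j => (hF i j).add (hG i j)

theorem HD.sub {F G : ℝ → Matrix m n ℂ} {F' G' : Matrix m n ℂ} {t : ℝ} (hF : HD F F' t) (hG : HD G G' t) :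
    HD (fun s => F s - G s) (F' - G') t := by
  exact fun i j => (hF i j).sub (hG i j)

theorem HD.neg {F : ℝ → Matrix m n ℂ} {F' : Matrix m n ℂ} {t : ℝ} (hF : HD F F' t) :
    HD (fun s => - F s) (-F') t := by
  exact fun i j => (hF i j).neg

theorem HD.smul {F : ℝ → Matrix m n ℂ} {F' : Matrix m n ℂ} {t : ℝ} (c : ℂ) (hF : HD F F' t) :
    HD (fun s => c • F s) (c • F') t := by
  exact fun i j => (hF i j).const_mul c

theorem HD.smul_fun {c : ℝ → ℂ} {c' : ℂ} {t : ℝ} (A : Matrix m n ℂ) (hc : HasDerivAt c c' t) :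
    HD (fun s => c s • A) (c' • A) t := by
  exact fun i j => hc.mul_const (A i j)

theorem HD.sum {k : ℕ} {F : Fin k → ℝ → Matrix m n ℂ} {F' : Fin k → Matrix m n ℂ} {t : ℝ} (h : ∀ j, HD (F j) (F' j) t) :
    HD (fun s => ∑ j, F j s) (∑ j, F' j) t := by
  intro i j
  simp only [Matrix.sum_apply]
  exact HasDerivAt.fun_sum fun k _ => h k i j

theorem HD.mul [Fintype l] {F : ℝ → Matrix m l ℂ} {G : ℝ → Matrix l n ℂ} {F' : Matrix m l ℂ} {G' : Matrix l n ℂ} {t : ℝ}
    (hF : HD F F' t) (hG : HD G G' t) : HD (fun s => F s * G s) (F' * G t + F t * G') t := by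
  intro i j
  simp only [Matrix.mul_apply, Matrix.add_apply, ← Finset.sum_add_distrib]
  exact HasDerivAt.fun_sum fun k _ => (hF i k).mul (hG k j)

theorem HD.const_mul [Fintype l] (A : Matrix m l ℂ) {G : ℝ → Matrix l n ℂ} {G' : Matrix l n ℂ} {t : ℝ}
    (hG : HD G G' t) : HD (fun s => A * G s) (A * G') t := by
  intro i j
  simp only [Matrix.mul_apply]
  exact HasDerivAt.fun_sum fun k _ => (hG k j).const_mul (A i k)

theorem HD.mul_const [Fintype l] {F : ℝ → Matrix m l ℂ} {F' : Matrix m l ℂ} {t : ℝ} (hF : HD F F' t) (A : Matrix l n ℂ) :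
    HD (fun s => F s * A) (F' * A) t := by
  intro i j
  simp only [Matrix.mul_apply]
  exact HasDerivAt.fun_sum fun k _ => (hF i k).mul_const (A k j)

theorem HD.conj {F : ℝ → Matrix m n ℂ} {F' : Matrix m n ℂ} {t : ℝ} (hF : HD F F' t) :
    HD (fun s => (F s)ᴴ) F'ᴴ t := by
  intro i j
  simp only [Matrix.conjTranspose_apply]
  exact (hF j i).star

theorem HD.trace [Fintype m] {F : ℝ → Matrix m m ℂ} {F' : Matrix m m ℂ} {t : ℝ} (hF : HD F F' t) :
    HasDerivAt (fun s => Matrix.trace (F s)) (Matrix.trace F') t := by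
  simp only [Matrix.trace, Matrix.diag]
  exact HasDerivAt.fun_sum fun k _ => hF k k

theorem HD.trace_re [Fintype m] {F : ℝ → Matrix m m ℂ} {F' : Matrix m m ℂ} {t : ℝ} (hF : HD F F' t) :
    HasDerivAt (fun s => (Matrix.trace (F s)).re) (Matrix.trace F').re t := by
  exact Complex.reCLM.hasFDerivAt.comp_hasDerivAt t hF.trace

theorem HD.unique {F : ℝ → Matrix m n ℂ} {A B : Matrix m n ℂ} {t : ℝ} (h : HD F A t) (h' : HD F B t) : A = B := by
  ext i j
  exact (h i j).unique (h' i j)

theorem HD.shift {F : ℝ → Matrix m n ℂ} {F' : Matrix m n ℂ} {t T : ℝ} (h : HD F F' (t + T)) : HD (fun s => F (s + T)) F' t := by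
  intro i j
  exact (h i j).comp_add_const t T

private theorem A0_det [Fintype m] [DecidableEq m] {F : ℝ → Matrix m m ℂ} {t : ℝ}
    (hF : ∀ i j, DifferentiableAt ℝ (fun s => F s i j) t) :
    DifferentiableAt ℝ (fun s => (F s).det) t := by
  simp only [Matrix.det_apply]
  refine DifferentiableAt.fun_sum fun σ _ => ?_
  refine DifferentiableAt.const_smul ?_ _
  exact DifferentiableAt.fun_finset_prod fun i _ => hF (σ i) i

private theorem A0_adj [Fintype m] [DecidableEq m] {F : ℝ → Matrix m m ℂ} {t : ℝ}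
    (hF : ∀ i j, DifferentiableAt ℝ (fun s => F s i j) t) (i j : m) :
    DifferentiableAt ℝ (fun s => (F s).adjugate i j) t := by
  simp only [Matrix.adjugate_apply]
  refine A0_det fun k l => ?_
  simp only [Matrix.updateRow_apply]
  split_ifs
  · exact differentiableAt_const _
  · exact hF k l

private theorem A0_inv_entry [Fintype m] [DecidableEq m] {F : ℝ → Matrix m m ℂ} {t : ℝ}
    (hF : ∀ i j, DifferentiableAt ℝ (fun s => F s i j) t) (h : (F t).det ≠ 0) (i j : m) :
    DifferentiableAt ℝ (fun s => (F s)⁻¹ i j) t := by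
  have h1 : (fun s => (F s)⁻¹ i j) = fun s => ((F s).det)⁻¹ * (F s).adjugate i j := by
    funext s
    rw [Matrix.inv_def, Ring.inverse_eq_inv', Matrix.smul_apply, smul_eq_mul]
  rw [h1]
  exact ((A0_det hF).inv h).mul (A0_adj hF i j)

theorem HD.inv [Fintype m] [DecidableEq m] {F : ℝ → Matrix m m ℂ} {F' : Matrix m m ℂ} {t : ℝ} (hF : HD F F' t)
    (h : (F t).det ≠ 0) : HD (fun s => (F s)⁻¹) (-((F t)⁻¹ * F' * (F t)⁻¹)) t := by
  have hd : ∀ i j, DifferentiableAt ℝ (fun s => F s i j) t := fun i j => (hF i j).differentiableAt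
  have hK : HD (fun s => (F s)⁻¹) (Matrix.of fun i j => deriv (fun s => (F s)⁻¹ i j) t) t :=
    fun i j => (A0_inv_entry hd h i j).hasDerivAt
  set K : Matrix m m ℂ := Matrix.of fun i j => deriv (fun s => (F s)⁻¹ i j) t with hKdef
  have hprod := hF.mul hK
  have hne : ∀ᶠ s in nhds t, (F s).det ≠ 0 := (A0_det hd).continuousAt.eventually_ne h
  have hzero : F' * (F t)⁻¹ + F t * K = 0 := by
    ext i j
    have h1 := hprod i j
    have h2 : HasDerivAt (fun s => (F s * (F s)⁻¹) i j) 0 t := by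
      refine (hasDerivAt_const t ((1 : Matrix m m ℂ) i j)).congr_of_eventuallyEq ?_
      filter_upwards [hne] with s hs
      rw [Matrix.mul_nonsing_inv _ (isUnit_iff_ne_zero.2 hs)]
    exact h1.unique h2
  have hinv : (F t)⁻¹ * F t = 1 := Matrix.nonsing_inv_mul _ (isUnit_iff_ne_zero.2 h)
  have hKeq : K = -((F t)⁻¹ * F' * (F t)⁻¹) := by
    have h3 : F t * K = -(F' * (F t)⁻¹) := eq_neg_of_add_eq_zero_right hzero
    calc K = (F t)⁻¹ * F t * K := by rw [hinv, Matrix.one_mul]
      _ = (F t)⁻¹ * (F t * K) := Matrix.mul_assoc _ _ _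
      _ = -((F t)⁻¹ * F' * (F t)⁻¹) := by rw [h3, Matrix.mul_neg, Matrix.mul_assoc]
  exact hK.congr_deriv hKeq

end Pool.Agent.MP_a98e84_gt.TG
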