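import Pool.Agent.Lib.MP_a98e84_gt.TG.Defs

/-!
# TASK TG Sp2: the form `tr (Yᴴ X)` on a space `V` of matrices

`tr (Xᴴ X) = ∑ ‖X i j‖²` (`Matrix.trace_conjTranspose_mul_self_eq_zero_iff` or similar exists). (`exists_rep`) The conjugate linear map `Y ↦ (X ↦ tr (Yᴴ X))` from `V` to the dual of `V`
is injective (take `X = Y`), and the dimensions are equal, so it is surjective (`LinearMap.injective_iff_surjective_of_finrank_eq_finrank`; use that `Y ↦ (X ↦ conj (tr (Yᴴ X)))`... or apply the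
statement to the linear map from `V` to the dual given by `Y ↦ (X ↦ tr (Yᵀ.map conj ...))`; another way: an orthogonal basis). Then restrict `φ` to `V`.
(`mem_of_functionals`) if every linear functional on all matrices which vanishes on `V` vanishes at `X`, then `X ∈ V` (`Submodule.exists_le_ker_of_lt_top`, `Submodule.exists_dual_map_eq_bot_of_notMem` ...).
-/

set_option autoImplicit false

namespace Pool.Agent.MP_a98e84_gt.TG

open Matrix
open scoped ComplexOrder

variable {m n : Type*} [Fintype m] [Fintype n] [DecidableEq m] [DecidableEq n]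


omit [DecidableEq m] [DecidableEq n] in
private theorem Sp2_trace (X : Matrix m n ℂ) :
    trace (Xᴴ * X) = ((∑ j, ∑ i, Complex.normSq (X i j) : ℝ) : ℂ) := by
  rw [trace]
  push_cast
  refine Finset.sum_congr rfl fun j _ => ?_
  rw [diag_apply, mul_apply]
  refine Finset.sum_congr rfl fun i _ => ?_
  rw [conjTranspose_apply, Complex.normSq_eq_conj_mul_self]
  rfl

theorem eq_zero_of_trace {X : Matrix m n ℂ} (h : (trace (Xᴴ * X)).re = 0) : X = 0 := by
  rw [Sp2_trace, Complex.ofReal_re] at h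
  ext i j
  have h1 := (Finset.sum_eq_zero_iff_of_nonneg (fun j _ =>
    Finset.sum_nonneg fun i _ => Complex.normSq_nonneg (X i j))).1 h j (Finset.mem_univ j)
  have h2 := (Finset.sum_eq_zero_iff_of_nonneg (fun i _ => Complex.normSq_nonneg (X i j))).1 h1 i
    (Finset.mem_univ i)
  exact Complex.normSq_eq_zero.1 h2

theorem trace_nonneg (X : Matrix m n ℂ) : 0 ≤ (trace (Xᴴ * X)).re ∧ (trace (Xᴴ * X)).im = 0 := by
  rw [Sp2_trace, Complex.ofReal_re, Complex.ofReal_im]
  exact ⟨Finset.sum_nonneg fun j _ => Finset.sum_nonneg fun i _ => Complex.normSq_nonneg (X i j), rfl⟩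

omit [Fintype m] [Fintype n] [DecidableEq m] [DecidableEq n] in
private theorem Sp2_mem (V : Submodule ℂ (Matrix m n ℂ)) (X : Matrix m n ℂ)
    (h : ∀ φ : Matrix m n ℂ →ₗ[ℂ] ℂ, (∀ Y ∈ V, φ Y = 0) → φ X = 0) : X ∈ V := by
  by_contra hX
  obtain ⟨f, hf, hV⟩ := Submodule.exists_le_ker_of_notMem hX
  exact hf (h f fun Y hY => LinearMap.mem_ker.1 (hV hY))

theorem exists_rep (V : Submodule ℂ (Matrix m n ℂ)) (φ : Matrix m n ℂ →ₗ[ℂ] ℂ) :
    ∃ Y ∈ V, ∀ X ∈ V, φ X = trace (Yᴴ * X) := by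
  let W : Submodule ℂ (Module.Dual ℂ (Matrix m n ℂ)) :=
    { carrier := {ψ | ∃ Y ∈ V, ∀ X ∈ V, ψ X = trace (Yᴴ * X)}
      add_mem' := by
        rintro ψ ψ' ⟨Y, hY, h⟩ ⟨Y', hY', h'⟩
        refine ⟨Y + Y', V.add_mem hY hY', fun X hX => ?_⟩
        rw [LinearMap.add_apply, h X hX, h' X hX, conjTranspose_add, Matrix.add_mul, trace_add]
      zero_mem' := ⟨0, V.zero_mem, fun X _ => by simp⟩
      smul_mem' := by
        rintro c ψ ⟨Y, hY, h⟩
        refine ⟨star c • Y, V.smul_mem _ hY, fun X hX => ?_⟩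
        rw [LinearMap.smul_apply, h X hX, conjTranspose_smul, star_star, Matrix.smul_mul, trace_smul] }
  have hW : W = ⊤ := by
    by_contra hne
    obtain ⟨f, hf, hle⟩ := W.exists_le_ker_of_lt_top (lt_top_iff_ne_top.2 hne)
    obtain ⟨Z, rfl⟩ := (Module.evalEquiv ℂ (Matrix m n ℂ)).surjective f
    have h0 : ∀ ψ ∈ W, ψ Z = 0 := fun ψ hψ => by
      have h1 := LinearMap.mem_ker.1 (hle hψ)
      simpa using h1
    have hZ : Z ∈ V := Sp2_mem V Z fun ψ hψ =>
      h0 ψ ⟨0, V.zero_mem, fun X hX => by rw [hψ X hX]; simp⟩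
    let L : Matrix m n ℂ →ₗ[ℂ] ℂ :=
      { toFun := fun X => trace (Zᴴ * X)
        map_add' := fun X Y => by rw [Matrix.mul_add, trace_add]
        map_smul' := fun c X => by rw [Matrix.mul_smul, trace_smul, RingHom.id_apply] }
    have h2 := h0 L ⟨Z, hZ, fun X _ => rfl⟩
    have h3 : trace (Zᴴ * Z) = 0 := h2
    have h4 : Z = 0 := eq_zero_of_trace (by rw [h3]; rfl)
    apply hf
    rw [h4, map_zero]
  have h5 : φ ∈ W := by rw [hW]; exact Submodule.mem_top
  exact h5

theorem mem_of_functionals (V : Submodule ℂ (Matrix m n ℂ)) (X : Matrix m n ℂ)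
    (h : ∀ φ : Matrix m n ℂ →ₗ[ℂ] ℂ, (∀ Y ∈ V, φ Y = 0) → φ X = 0) : X ∈ V :=
  Sp2_mem V X h

end Pool.Agent.MP_a98e84_gt.TG
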