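import Pool.Agent.Lib.MP_a98e84_gt.TG.A0
import Pool.Agent.Lib.MP_a98e84_gt.TG.Sp2

/-!
# TASK TG A3a: curves in a space of matrices which are differentiable when paired with the elements of the space

(`HD.mem`) By `mem_of_functionals`: a linear functional `φ` which vanishes on `V` vanishes on `F s` for all `s`; `φ` is a finite sum of multiples of entries (`LinearMap` on a finite dimensional space;
`φ X = ∑ i j, X i j * φ (single i j 1)`), so the derivative `φ F'` of `s ↦ φ (F s) = 0` is `0`.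
(`HD_of_pair`) Let `i j` be given. `exists_rep` for the functional `X ↦ X i j` gives `Y ∈ V` with `X i j = tr (Yᴴ X)` for `X ∈ V`; so `(X i j).re = Re tr (X Yᴴ)` and `(X i j).im = Re tr (X (i Y)ᴴ)` for `X ∈ V`
(cyclicity; `(i Y)ᴴ = -i Yᴴ`). So the entry `F s i j` has at `t` the derivative `ℓ Y + i ℓ (i Y)`. Let `F'` be the matrix of these numbers; `HD F F' t`; `F' ∈ V` by `HD.mem`; the last statement: the
derivative of `Re tr (F r * Yᴴ)` is `Re tr (F' Yᴴ)` (`HD.trace_re`, `HD.mul_const`) and derivatives are unique.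
-/

set_option autoImplicit false

namespace Pool.Agent.MP_a98e84_gt.TG

open Matrix
open scoped ComplexOrder

variable {m n : Type*} [Fintype m] [Fintype n] [DecidableEq m] [DecidableEq n]


theorem HD.mem {V : Submodule ℂ (Matrix m n ℂ)} {F : ℝ → Matrix m n ℂ} {F' : Matrix m n ℂ} {t : ℝ} (hF : ∀ s, F s ∈ V)
    (h : HD F F' t) : F' ∈ V := by
  refine mem_of_functionals V F' fun φ hφ => ?_
  have hsum : ∀ X : Matrix m n ℂ, φ X = ∑ i, ∑ j, X i j * φ (Matrix.single i j 1) := by
    intro X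
    conv_lhs => rw [Matrix.matrix_eq_sum_single X]
    rw [map_sum]
    refine Finset.sum_congr rfl fun i _ => ?_
    rw [map_sum]
    refine Finset.sum_congr rfl fun j _ => ?_
    have e : Matrix.single i j (X i j) = X i j • Matrix.single i j (1 : ℂ) := by
      rw [Matrix.smul_single, smul_eq_mul, mul_one]
    rw [e, map_smul, smul_eq_mul]
  have h1 : HasDerivAt (fun s => ∑ i, ∑ j, F s i j * φ (Matrix.single i j 1))
      (∑ i, ∑ j, F' i j * φ (Matrix.single i j 1)) t :=
    HasDerivAt.fun_sum fun i _ => HasDerivAt.fun_sum fun j _ => (h i j).mul_const _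
  have h2 : (fun s => ∑ i, ∑ j, F s i j * φ (Matrix.single i j 1)) = fun _ => (0 : ℂ) := by
    funext s
    rw [← hsum (F s), hφ _ (hF s)]
  rw [h2, ← hsum F'] at h1
  exact h1.unique (hasDerivAt_const t (0 : ℂ))

theorem HD_of_pair {V : Submodule ℂ (Matrix m n ℂ)} {F : ℝ → Matrix m n ℂ} (hF : ∀ s, F s ∈ V) {t : ℝ}
    {ℓ : Matrix m n ℂ → ℝ} (h : ∀ Y ∈ V, HasDerivAt (fun r => (trace (F r * Yᴴ)).re) (ℓ Y) t) :
    ∃ F' ∈ V, HD F F' t ∧ ∀ Y ∈ V, (trace (F' * Yᴴ)).re = ℓ Y := by
  have hrep : ∀ (i : m) (j : n), ∃ Y ∈ V, ∀ X ∈ V, X i j = trace (Yᴴ * X) := by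
    intro i j
    obtain ⟨Y, hY, hYX⟩ := exists_rep V
      { toFun := fun X : Matrix m n ℂ => X i j
        map_add' := fun _ _ => rfl
        map_smul' := fun _ _ => rfl }
    exact ⟨Y, hY, hYX⟩
  choose Y hYV hY using hrep
  have hre : ∀ i j, ∀ X ∈ V, (X i j).re = (trace (X * (Y i j)ᴴ)).re := by
    intro i j X hX
    rw [hY i j X hX, Matrix.trace_mul_comm]
  have him : ∀ i j, ∀ X ∈ V, (X i j).im = (trace (X * (Complex.I • Y i j)ᴴ)).re := by
    intro i j X hX
    rw [hY i j X hX, Matrix.conjTranspose_smul, Matrix.mul_smul, Matrix.trace_smul, Matrix.trace_mul_comm X]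
    simp
  have hHD : HD F (Matrix.of fun i j => ((ℓ (Y i j) : ℝ) : ℂ) + ((ℓ (Complex.I • Y i j) : ℝ) : ℂ) * Complex.I) t := by
    intro i j
    have h1 := (h (Y i j) (hYV i j)).ofReal_comp
    have h2 := (h (Complex.I • Y i j) (V.smul_mem _ (hYV i j))).ofReal_comp
    have h3 := h1.add (h2.mul_const Complex.I)
    have e : (fun s => F s i j) = (fun r => (((trace (F r * (Y i j)ᴴ)).re : ℝ) : ℂ)) +
        fun r => (((trace (F r * (Complex.I • Y i j)ᴴ)).re : ℝ) : ℂ) * Complex.I := by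
      funext s
      rw [Pi.add_apply, ← hre i j _ (hF s), ← him i j _ (hF s), Complex.re_add_im]
    rw [e]
    exact h3
  refine ⟨_, hHD.mem hF, hHD, fun Z hZ => ?_⟩
  exact (HD.trace_re (HD.mul_const hHD Zᴴ)).unique (h Z hZ)

end Pool.Agent.MP_a98e84_gt.TG
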