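import Pool.Agent.Lib.MP_a98e84_gt.TG.A2
import Pool.Agent.Lib.MP_a98e84_gt.TG.A3a
import Pool.Agent.Lib.MP_a98e84_gt.Mg.G001

/-!
# TASK TG A3: the second order equation from the Euler-Lagrange equation (one factor)

Let `P, Q` be as in `A2`, `U = x'`, `f t = P U Q`; `U t ∈ V` by `HD.mem`, so `f t ∈ V` by `JStar.sandinv`. `hm (x r) (x' r) Y = tr (f r * Yᴴ)`. `HD_of_pair` gives `f' ∈ V` with `HD f f' t` and
`Re tr (f' Yᴴ) = Re tr (Yᴴ gr) + κ Re hm (x, i x', Y)` for `Y ∈ V`. `U = (1 - x xᴴ) f (1 - xᴴ x)` is differentiable (`HD.mul` ...), say `HD x' U' t` (for all `t`), and `U' ∈ V`. `HD_puq` and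
`HD.unique`: `f' = gr + P (U' + 2 U Q Wᴴ U) Q`. So with `Z = P (U' + 2 U Q Wᴴ U - iκ U) Q` we have `Re tr (Z Yᴴ) = 0` for all `Y ∈ V`, and `Z ∈ V`: `U Q Wᴴ U = U (W Q)ᴴ U` with `W Q ∈ V`
(`JStar.wq`, `JStar.aba`; `Q` Hermitian, `(W Q)ᴴ = Q Wᴴ`), `JStar.sandinv`. Take `Y = Z`: `Z = 0` (`eq_zero_of_trace`), multiply by the inverses: `U' = iκ U - 2 U Q Wᴴ U`.
-/

set_option autoImplicit false

namespace Pool.Agent.MP_a98e84_gt.TG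

open Matrix
open scoped ComplexOrder

variable {m n : Type*} [Fintype m] [Fintype n] [DecidableEq m] [DecidableEq n]


theorem ode_of_el {V : Submodule ℂ (Matrix m n ℂ)} (hV : JStar V) {κ : ℝ} {x x' : ℝ → Matrix m n ℂ}
    (hb : ∀ t, x t ∈ V ∧ Ball (x t)) (hx : ∀ t, HD x (x' t) t)
    (h : ∀ t, ∀ Y ∈ V, HasDerivAt (fun r => (hm (x r) (x' r) Y).re)
      ((trace (Yᴴ * gr (x t) (x' t))).re + κ * (hm (x t) (Complex.I • x' t) Y).re) t) : Ode κ x x' := by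
  refine ⟨fun t => (hb t).2, hx, fun t => ?_⟩
  have hx'V : ∀ s, x' s ∈ V := fun s => HD.mem (fun r => (hb r).1) (hx s)
  have hfV : ∀ s, (1 - x s * (x s)ᴴ)⁻¹ * x' s * (1 - (x s)ᴴ * x s)⁻¹ ∈ V :=
    fun s => hV.sandinv (hb s).1 (hb s).2 (hx'V s)
  obtain ⟨f', hf'V, hf', hf'l⟩ := HD_of_pair hfV (t := t)
    (ℓ := fun Y => (trace (Yᴴ * gr (x t) (x' t))).re + κ * (hm (x t) (Complex.I • x' t) Y).re)
    (fun Y hY => h t Y hY)
  have hP : ∀ s, (1 - x s * (x s)ᴴ) * (1 - x s * (x s)ᴴ)⁻¹ = 1 := fun s =>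
    Matrix.mul_nonsing_inv _ (isUnit_iff_ne_zero.2 (hb s).2.det_ne')
  have hQ : ∀ s, (1 - (x s)ᴴ * x s)⁻¹ * (1 - (x s)ᴴ * x s) = 1 := fun s =>
    Matrix.nonsing_inv_mul _ (isUnit_iff_ne_zero.2 (hb s).2.det_ne)
  have hsand : ∀ s (y : Matrix m n ℂ), (1 - x s * (x s)ᴴ) *
      ((1 - x s * (x s)ᴴ)⁻¹ * y * (1 - (x s)ᴴ * x s)⁻¹) * (1 - (x s)ᴴ * x s) = y := by
    intro s y
    rw [Matrix.mul_assoc ((1 - x s * (x s)ᴴ)⁻¹), ← Matrix.mul_assoc (1 - x s * (x s)ᴴ), hP s,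
      Matrix.one_mul, Matrix.mul_assoc, hQ s, Matrix.mul_one]
  -- the derivative of `x'`
  obtain ⟨U', hU⟩ : ∃ U', HD x' U' t := by
    have h1 := HD.mul (HD.mul (HD.sub (HD.const 1 t) (HD.mul (hx t) (HD.conj (hx t)))) hf')
      (HD.sub (HD.const 1 t) (HD.mul (HD.conj (hx t)) (hx t)))
    exact ⟨_, HD.congr h1 fun s => (hsand s (x' s)).symm⟩
  have hU'V : U' ∈ V := HD.mem hx'V hU
  have hpuq := HD_puq (hb t).2 (hx t) hU
  have hfe := HD.unique hf' hpuq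
  have hQh : ((1 - (x t)ᴴ * x t)⁻¹)ᴴ = (1 - (x t)ᴴ * x t)⁻¹ := Q_herm _
  have haba : x' t * (1 - (x t)ᴴ * x t)⁻¹ * (x t)ᴴ * x' t ∈ V := by
    have h1 := hV.aba (hx'V t) (hV.wq (hb t).1 (hb t).2)
    rw [conjTranspose_mul, hQh, ← Matrix.mul_assoc] at h1
    exact h1
  set N : Matrix m n ℂ := x' t * (1 - (x t)ᴴ * x t)⁻¹ * (x t)ᴴ * x' t with hN
  set y : Matrix m n ℂ := U' + (2 : ℂ) • N - ((κ : ℂ) * Complex.I) • x' t with hy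
  have hyV : y ∈ V := V.sub_mem (V.add_mem hU'V (V.smul_mem _ haba)) (V.smul_mem _ (hx'V t))
  set Z : Matrix m n ℂ := (1 - x t * (x t)ᴴ)⁻¹ * y * (1 - (x t)ᴴ * x t)⁻¹ with hZ
  have hZV : Z ∈ V := hV.sandinv (hb t).1 (hb t).2 hyV
  have hfZ : f' = gr (x t) (x' t) + Z +
      ((κ : ℂ) * Complex.I) • ((1 - x t * (x t)ᴴ)⁻¹ * x' t * (1 - (x t)ᴴ * x t)⁻¹) := by
    rw [hfe, hZ, hy, Matrix.mul_sub, Matrix.sub_mul, Matrix.mul_smul, Matrix.smul_mul]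
    abel
  have hZ0 : (trace (Zᴴ * Z)).re = 0 := by
    have h1 := hf'l Z hZV
    have h2 : hm (x t) (Complex.I • x' t) Z =
        Complex.I * trace ((1 - x t * (x t)ᴴ)⁻¹ * x' t * (1 - (x t)ᴴ * x t)⁻¹ * Zᴴ) := by
      unfold hm
      rw [Matrix.mul_smul, Matrix.smul_mul, Matrix.smul_mul, Matrix.trace_smul, smul_eq_mul]
    have h3 : trace (f' * Zᴴ) = trace (Zᴴ * gr (x t) (x' t)) + trace (Zᴴ * Z) +
        ((κ : ℂ) * Complex.I) *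
          trace ((1 - x t * (x t)ᴴ)⁻¹ * x' t * (1 - (x t)ᴴ * x t)⁻¹ * Zᴴ) := by
      rw [hfZ, Matrix.add_mul, Matrix.add_mul, Matrix.smul_mul, Matrix.trace_add, Matrix.trace_add,
        Matrix.trace_smul, smul_eq_mul, Matrix.trace_mul_comm (gr (x t) (x' t)),
        Matrix.trace_mul_comm Z]
    have h4 : (((κ : ℂ) * Complex.I) *
        trace ((1 - x t * (x t)ᴴ)⁻¹ * x' t * (1 - (x t)ᴴ * x t)⁻¹ * Zᴴ)).re =
        κ * (Complex.I * trace ((1 - x t * (x t)ᴴ)⁻¹ * x' t * (1 - (x t)ᴴ * x t)⁻¹ * Zᴴ)).re := by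
      rw [mul_assoc, Complex.re_ofReal_mul]
    rw [h3, Complex.add_re, Complex.add_re, h4, h2] at h1
    linarith
  have hZe : Z = 0 := eq_zero_of_trace hZ0
  have hye : y = 0 := by
    have h1 := hsand t y
    rw [← hZ, hZe, Matrix.mul_zero, Matrix.zero_mul] at h1
    exact h1.symm
  refine HD.congr_deriv hU ?_
  have h1 : U' + (2 : ℂ) • N - ((κ : ℂ) * Complex.I) • x' t = 0 := hye
  rw [sub_eq_zero] at h1
  rw [← h1]
  abel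

end Pool.Agent.MP_a98e84_gt.TG
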