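import Pool.Agent.Lib.MP_a98e84_gt.TG.A0
import Pool.Agent.Lib.MP_a98e84_gt.Mg.G001

/-!
# TASK TG B3b: solutions in a polydisc

(`ode_pl`) `mem`: `Trip.ball`. `vel`, `acc`: `HD.sum`, `HD.smul_fun`; the right hand side of `Ode.acc` is `pl E` of the right hand sides of `DiscOde.acc` by `Trip.uqwu` (`pl E` is linear:
`c • pl E u = pl E (c * u)`, `pl E u - pl E v = pl E (u - v)`). (`pl_mem`) sums and multiples.
-/

set_option autoImplicit false

namespace Pool.Agent.MP_a98e84_gt.TG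

open Matrix
open scoped ComplexOrder

variable {m n : Type*} [Fintype m] [Fintype n] [DecidableEq m] [DecidableEq n]


variable {k : ℕ} {E : Fin k → Matrix m n ℂ}

theorem pl_mem {V : Submodule ℂ (Matrix m n ℂ)} (hE : ∀ j, E j ∈ V) (w : Fin k → ℂ) : pl E w ∈ V := by
  unfold pl
  exact V.sum_mem fun j _ => V.smul_mem _ (hE j)

theorem ode_pl (hE : Trip E) {κ : ℝ} {w w' : Fin k → ℝ → ℂ} (h : ∀ j, DiscOde κ (w j) (w' j)) :
    Ode κ (fun t => pl E (fun j => w j t)) (fun t => pl E (fun j => w' j t)) := by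
  have hd : ∀ (v v' : Fin k → ℝ → ℂ) (t : ℝ), (∀ j, HasDerivAt (v j) (v' j t) t) →
      HD (fun t => pl E (fun j => v j t)) (pl E (fun j => v' j t)) t := by
    intro v v' t hv
    exact HD.sum (F := fun j s => v j s • E j) (F' := fun j => v' j t • E j) fun j => HD.smul_fun (E j) (hv j)
  refine ⟨fun t => hE.ball fun j => (h j).mem t, fun t => hd w w' t fun j => (h j).vel t, fun t => ?_⟩
  have h1 := hd w' (fun j t => (κ : ℂ) * Complex.I * w' j t -
    2 * (starRingEnd ℂ) (w j t) * w' j t ^ 2 / ((1 - ‖w j t‖ ^ 2 : ℝ) : ℂ)) t fun j => (h j).acc t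
  refine h1.congr_deriv ?_
  rw [hE.uqwu (fun j => (h j).mem t)]
  unfold pl
  rw [Finset.smul_sum, Finset.smul_sum, ← Finset.sum_sub_distrib]
  refine Finset.sum_congr rfl fun j _ => ?_
  rw [smul_smul, smul_smul, ← sub_smul]
  congr 1
  ring

theorem disc_zero (κ : ℝ) : DiscOde κ (fun _ => 0) (fun _ => 0) := by
  refine ⟨fun t => ?_, fun t => hasDerivAt_const t (0 : ℂ), fun t => ?_⟩
  · simp
  · simpa using hasDerivAt_const t (0 : ℂ)

end Pool.Agent.MP_a98e84_gt.TG
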