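import Pool.Agent.Lib.MP_a98e84_gt.Mg.G001

/-!
# TASK TG B5: the maximal rank

The set of ranks of elements of `V` is bounded by `card n` (`Matrix.rank_le_card_width`), it contains `0`; so `maxRank V` is attained (`Nat.sSup_mem`) and is an upper bound (`le_csSup`).
(`Trip.rank_pl`) for `c j ≠ 0`: the range of `pl E c` is the direct sum of the ranges of the `E j` (they are orthogonal: `(E i)ᴴ E j = 0`); or: with `M = pl E c` and the projection `∑ E j (E j)ᴴ`:
`M = (∑ E j (E j)ᴴ) M` and `∑ E j (E j)ᴴ = M * (pl E (1 / conj c))ᴴ` (`pl_mul_star`), so `rank M = rank (∑ E j (E j)ᴴ)`, and the rank of this Hermitian projection is its trace `∑ tr (E j (E j)ᴴ) = ∑ rank (E j)`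
(`trace_trip`; for the rank of the sum apply `trace_trip` to `e = pl E 1`, a partial isometry with `e eᴴ = ∑ E j (E j)ᴴ`, `rank e = rank (e eᴴ)`).
(`Trip.sum_rank_le`) `pl E 1 ∈ V`. (`exists_max`) take `A ∈ V` of rank `maxRank V`, `trip_decomp`, `e = pl E 1`.
(`maxRank_pos`) an element `≠ 0` has rank `> 0` (`Matrix.rank_eq_zero` or `rank_eq_finrank_range_toLin`).
-/

set_option autoImplicit false

namespace Pool.Agent.MP_a98e84_gt.TG

open Matrix
open scoped ComplexOrder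

variable {m n : Type*} [Fintype m] [Fintype n] [DecidableEq m] [DecidableEq n]


variable {V : Submodule ℂ (Matrix m n ℂ)}

private theorem B5_bdd (V : Submodule ℂ (Matrix m n ℂ)) : BddAbove {r | ∃ A ∈ V, A.rank = r} :=
  ⟨Fintype.card n, by
    rintro r ⟨A, -, rfl⟩
    exact Matrix.rank_le_card_width A⟩

theorem le_maxRank {A : Matrix m n ℂ} (hA : A ∈ V) : A.rank ≤ maxRank V := by
  exact le_csSup (B5_bdd V) ⟨A, hA, rfl⟩

private theorem B5_pl_one {k : ℕ} {E : Fin k → Matrix m n ℂ} (hE : Trip E) :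
    pl E (fun _ => 1) * (pl E fun _ => 1)ᴴ = ∑ j, E j * (E j)ᴴ := by
  rw [pl_mul_star hE]
  refine Finset.sum_congr rfl fun j _ => ?_
  rw [map_one, mul_one, one_smul]

private theorem B5_trip {k : ℕ} {E : Fin k → Matrix m n ℂ} (hE : Trip E) :
    pl E (fun _ => 1) * (pl E fun _ => 1)ᴴ * (pl E fun _ => 1) = pl E fun _ => 1 := by
  have h := proj_mul_pl hE (fun _ => 1) (fun _ => 1)
  simp only [one_smul, mul_one] at h
  rw [B5_pl_one hE, h]

private theorem B5_rank_one {k : ℕ} {E : Fin k → Matrix m n ℂ} (hE : Trip E) :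
    (pl E fun _ => 1).rank = ∑ j, (E j).rank := by
  have h1 := trace_trip (B5_trip hE)
  rw [B5_pl_one hE, trace_sum] at h1
  have h2 : ∀ j, trace (E j * (E j)ᴴ) = ((E j).rank : ℂ) := fun j => trace_trip (hE.trip j)
  rw [Finset.sum_congr rfl fun j _ => h2 j] at h1
  have h3 : ((∑ j, (E j).rank : ℕ) : ℂ) = ((pl E fun _ => 1).rank : ℂ) := by
    rw [← h1]
    push_cast
    rfl
  exact (Nat.cast_injective h3).symm

theorem Trip.rank_pl {k : ℕ} {E : Fin k → Matrix m n ℂ} (hE : Trip E) {c : Fin k → ℂ} (hc : ∀ j, c j ≠ 0) :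
    (pl E c).rank = ∑ j, (E j).rank := by
  rw [← B5_rank_one hE]
  apply le_antisymm
  · have h := proj_mul_pl hE (fun _ => 1) c
    simp only [mul_one] at h
    have h2 := Matrix.rank_mul_le_right (∑ j, c j • (E j * (E j)ᴴ)) (pl E fun _ => 1)
    rw [h] at h2
    exact h2
  · have h := proj_mul_pl hE c (fun j => (c j)⁻¹)
    have h1 : (fun j => (c j)⁻¹ * c j) = fun _ => 1 := by
      funext j
      exact inv_mul_cancel₀ (hc j)
    rw [h1] at h
    have h2 := Matrix.rank_mul_le_right (∑ j, (c j)⁻¹ • (E j * (E j)ᴴ)) (pl E c)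
    rw [h] at h2
    exact h2

private theorem B5_mem {k : ℕ} {E : Fin k → Matrix m n ℂ} (hEV : ∀ j, E j ∈ V) (w : Fin k → ℂ) :
    pl E w ∈ V :=
  V.sum_mem fun j _ => V.smul_mem _ (hEV j)

theorem Trip.sum_rank_le {k : ℕ} {E : Fin k → Matrix m n ℂ} (hE : Trip E) (hEV : ∀ j, E j ∈ V) :
    ∑ j, (E j).rank ≤ maxRank V := by
  rw [← B5_rank_one hE]
  exact le_maxRank (B5_mem hEV _)

theorem exists_max (hV : JStar V) : ∃ e ∈ V, e * eᴴ * e = e ∧ e.rank = maxRank V := by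
  obtain ⟨A, hA, hAr⟩ : maxRank V ∈ {r | ∃ A ∈ V, A.rank = r} :=
    Nat.sSup_mem ⟨(0 : Matrix m n ℂ).rank, 0, V.zero_mem, rfl⟩ (B5_bdd V)
  obtain ⟨k, β, E, hE, hβ, -, hEV, hAE, -⟩ := trip_decomp hV hA
  refine ⟨pl E fun _ => 1, B5_mem hEV _, B5_trip hE, ?_⟩
  have hc : ∀ j, (fun j => ((β j : ℝ) : ℂ)) j ≠ 0 := fun j => by
    simpa using (hβ j).ne'
  have h1 := hE.rank_pl hc
  rw [← hAr, hAE, B5_rank_one hE, h1]

theorem maxRank_pos (h : V ≠ ⊥) : 0 < maxRank V := by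
  obtain ⟨A, hA, hA0⟩ := Submodule.exists_mem_ne_zero_of_ne_bot h
  refine lt_of_lt_of_le (Nat.pos_of_ne_zero fun hr => hA0 ?_) (le_maxRank hA)
  have h1 : A.mulVecLin = 0 := LinearMap.range_eq_bot.1 (Submodule.finrank_eq_zero.1 hr)
  have h2 : Matrix.toLin' A = 0 := h1
  exact (LinearEquiv.map_eq_zero_iff _).1 h2

end Pool.Agent.MP_a98e84_gt.TG
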