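import Pool.Agent.Lib.MP_a98e84_gt.TG.Defs

/-!
# TASK TG A0d: the derivative of a determinant

`det (F s) = ∑ σ, sign σ * ∏ i, F s (σ i) i` (`Matrix.det_apply'`); `HasDerivAt.fun_sum`, `HasDerivAt.fun_finset_prod`: the derivative is `∑ i, det (F t with the column i replaced by the column i of F')`
(`Matrix.updateCol`, exchange the sums), and `det (updateCol (F t) i b) = (cramer (F t) b) i = (adjugate (F t) *ᵥ b) i` (`Matrix.cramer_apply`, `Matrix.cramer_eq_adjugate_mulVec`), so the derivative is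
`tr (adjugate (F t) * F') = det (F t) * tr ((F t)⁻¹ * F')`. (Another way: `F s = F t * (1 + M s)`, `M s = (F t)⁻¹ (F s - F t)`.)
-/

set_option autoImplicit false

namespace Pool.Agent.MP_a98e84_gt.TG

open Matrix
open scoped ComplexOrder

theorem HD.det {m : Type*} [Fintype m] [DecidableEq m] {F : ℝ → Matrix m m ℂ} {F' : Matrix m m ℂ} {t : ℝ} (hF : HD F F' t)
    (h : (F t).det ≠ 0) : HasDerivAt (fun s => (F s).det) ((F t).det * Matrix.trace ((F t)⁻¹ * F')) t := by
  have h1 : HasDerivAt (fun s => ∑ σ : Equiv.Perm m, ((Equiv.Perm.sign σ : ℤ) : ℂ) * ∏ i, F s (σ i) i)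
      (∑ σ : Equiv.Perm m, ((Equiv.Perm.sign σ : ℤ) : ℂ) *
        ∑ i, (∏ j ∈ Finset.univ.erase i, F t (σ j) j) • F' (σ i) i) t := by
    refine HasDerivAt.fun_sum fun σ _ => ?_
    refine HasDerivAt.const_mul _ ?_
    exact HasDerivAt.fun_finsetProd fun i _ => hF (σ i) i
  have h2 : (fun s => (F s).det) =
      fun s => ∑ σ : Equiv.Perm m, ((Equiv.Perm.sign σ : ℤ) : ℂ) * ∏ i, F s (σ i) i := by
    funext s
    exact Matrix.det_apply' (F s)
  rw [h2]
  refine h1.congr_deriv ?_
  have h3 : ∀ i, ∑ σ : Equiv.Perm m, ((Equiv.Perm.sign σ : ℤ) : ℂ) *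
      ((∏ j ∈ Finset.univ.erase i, F t (σ j) j) • F' (σ i) i) = (adjugate (F t) * F') i i := by
    intro i
    have h4 : (adjugate (F t) * F') i i = (Matrix.updateCol (F t) i (fun a => F' a i)).det := by
      rw [← Matrix.cramer_apply, Matrix.cramer_eq_adjugate_mulVec]
      rfl
    rw [h4, Matrix.det_apply']
    refine Finset.sum_congr rfl fun σ _ => ?_
    rw [← Finset.mul_prod_erase Finset.univ _ (Finset.mem_univ i), Matrix.updateCol_self, smul_eq_mul]
    have h5 : ∏ j ∈ Finset.univ.erase i, Matrix.updateCol (F t) i (fun a => F' a i) (σ j) j =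
        ∏ j ∈ Finset.univ.erase i, F t (σ j) j := by
      refine Finset.prod_congr rfl fun j hj => ?_
      rw [Matrix.updateCol_ne (Finset.ne_of_mem_erase hj)]
    rw [h5]
    ring
  have h6 : ∑ σ : Equiv.Perm m, ((Equiv.Perm.sign σ : ℤ) : ℂ) *
        ∑ i, (∏ j ∈ Finset.univ.erase i, F t (σ j) j) • F' (σ i) i = trace (adjugate (F t) * F') := by
    simp_rw [Finset.mul_sum]
    rw [Finset.sum_comm]
    unfold Matrix.trace
    exact Finset.sum_congr rfl fun i _ => h3 i
  rw [h6, Matrix.inv_def, Ring.inverse_eq_inv', Matrix.smul_mul, Matrix.trace_smul, smul_eq_mul,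
    mul_inv_cancel_left₀ h]

end Pool.Agent.MP_a98e84_gt.TG
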