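import Pool.Agent.Lib.MP_a98e84_gt.Mg.G001
import Pool.Agent.Lib.MP_a98e84_gt.TG.A0

/-!
# TASK TG C5: the equation and the metric are invariant under `U(m,n)`

Let `A, B, C, D` be the blocks, `α = (Aᴴ + W Bᴴ)⁻¹`, `δ = (C W + D)⁻¹`, `Z = mob G W`. (`HD_mob`) `Z' = A U δ - (A W + B) δ C U δ = (A - Z C) U δ = α U δ` (`mob_key`).
(`hm_dmob`) `1 - Z Zᴴ = α (1 - W Wᴴ) αᴴ` (`one_sub_mob'`), `1 - Zᴴ Z = δᴴ (1 - Wᴴ W) δ` (`one_sub_mob`), so `P_Z = (αᴴ)⁻¹ P α⁻¹`, `Q_Z = δ⁻¹ Q (δᴴ)⁻¹`, and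
`P_Z (α U δ) Q_Z (α V δ)ᴴ = (αᴴ)⁻¹ P U Q Vᴴ αᴴ`; trace. (`ode_mob`) `ball_mob`; `vel` by `HD_mob`. `acc`: `α' = - α U Bᴴ α`, `δ' = - δ C U δ`, so `Z'' = - α U Bᴴ α U δ + α U' δ - α U δ C U δ`, and `Bᴴ α = δ C`
(`(C W + D) Bᴴ = C (Aᴴ + W Bᴴ)`, which is `D Bᴴ = C Aᴴ`, `c21`), so `Z'' = α (U' - 2 U Bᴴ α U) δ`. And `Z' Q_Z Zᴴ Z' = α U Q (δᴴ)⁻¹ Zᴴ α U δ` with `(δᴴ)⁻¹ Zᴴ = (A W + B)ᴴ = Wᴴ Aᴴ + Bᴴ = Wᴴ (Aᴴ + W Bᴴ) + (1 - Wᴴ W) Bᴴ`, so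
`Q (δᴴ)⁻¹ Zᴴ α = Q Wᴴ + Bᴴ α`. With `U' = iκ U - 2 U Q Wᴴ U`: `Z'' = iκ Z' - 2 α (U Q Wᴴ U + U Bᴴ α U) δ = iκ Z' - 2 Z' Q_Z Zᴴ Z'`.
-/

set_option autoImplicit false

namespace Pool.Agent.MP_a98e84_gt.TG

open Matrix
open scoped ComplexOrder

variable {m n : Type*} [Fintype m] [Fintype n] [DecidableEq m] [DecidableEq n]


variable {G : Matrix (m ⊕ n) (m ⊕ n) ℂ}

private theorem C5_inv_inv {ν : Type*} [Fintype ν] [DecidableEq ν] {M : Matrix ν ν ℂ} (h : M.det ≠ 0) :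
    M⁻¹ * M = 1 ∧ M * M⁻¹ = 1 ∧ (M⁻¹)⁻¹ = M :=
  ⟨Matrix.nonsing_inv_mul M (isUnit_iff_ne_zero.2 h), Matrix.mul_nonsing_inv M (isUnit_iff_ne_zero.2 h),
    Matrix.nonsing_inv_nonsing_inv M (isUnit_iff_ne_zero.2 h)⟩

private theorem C5_Q (hG : IsU G) {W : Matrix m n ℂ} (hW : Ball W) :
    (1 - (mob G W)ᴴ * mob G W)⁻¹ = (G.toBlocks₂₁ * W + G.toBlocks₂₂) * (1 - Wᴴ * W)⁻¹ *
      (G.toBlocks₂₁ * W + G.toBlocks₂₂)ᴴ := by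
  obtain ⟨-, -, h3⟩ := C5_inv_inv (hG.det_ne hW)
  rw [one_sub_mob hG hW hW, Matrix.mul_inv_rev, Matrix.mul_inv_rev, h3, Matrix.conjTranspose_nonsing_inv]
  have h4 : ((G.toBlocks₂₁ * W + G.toBlocks₂₂)ᴴ).det ≠ 0 := by
    rw [Matrix.det_conjTranspose]
    exact star_ne_zero.2 (hG.det_ne hW)
  rw [(C5_inv_inv h4).2.2, Matrix.mul_assoc]

private theorem C5_P (hG : IsU G) {W : Matrix m n ℂ} (hW : Ball W) :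
    (1 - mob G W * (mob G W)ᴴ)⁻¹ = (G.toBlocks₁₁ᴴ + W * G.toBlocks₁₂ᴴ)ᴴ * (1 - W * Wᴴ)⁻¹ *
      (G.toBlocks₁₁ᴴ + W * G.toBlocks₁₂ᴴ) := by
  obtain ⟨-, -, h3⟩ := C5_inv_inv (hG.det_ne' hW)
  rw [one_sub_mob' hG hW, Matrix.mul_inv_rev, Matrix.mul_inv_rev, h3, Matrix.conjTranspose_nonsing_inv]
  have h4 : ((G.toBlocks₁₁ᴴ + W * G.toBlocks₁₂ᴴ)ᴴ).det ≠ 0 := by
    rw [Matrix.det_conjTranspose]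
    exact star_ne_zero.2 (hG.det_ne' hW)
  rw [(C5_inv_inv h4).2.2, Matrix.mul_assoc]

theorem HD_mob (hG : IsU G) {x : ℝ → Matrix m n ℂ} {U : Matrix m n ℂ} {t : ℝ} (hx : HD x U t) (hb : Ball (x t)) :
    HD (fun s => mob G (x s)) (dmob G (x t) U) t := by
  have h1 : HD (fun s => G.toBlocks₁₁ * x s + G.toBlocks₁₂) (G.toBlocks₁₁ * U + 0) t :=
    (HD.const_mul G.toBlocks₁₁ hx).add (HD.const G.toBlocks₁₂ t)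
  have h2 : HD (fun s => G.toBlocks₂₁ * x s + G.toBlocks₂₂) (G.toBlocks₂₁ * U + 0) t :=
    (HD.const_mul G.toBlocks₂₁ hx).add (HD.const G.toBlocks₂₂ t)
  have h3 := h1.mul (h2.inv (hG.det_ne hb))
  refine HD.congr_deriv h3 ?_
  unfold dmob
  rw [← mob_key hG hb]
  unfold mob
  simp only [add_zero, Matrix.sub_mul, Matrix.mul_neg, Matrix.mul_assoc]
  abel

theorem hm_dmob (hG : IsU G) {W : Matrix m n ℂ} (hW : Ball W) (U V : Matrix m n ℂ) :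
    hm (mob G W) (dmob G W U) (dmob G W V) = hm W U V := by
  unfold hm
  rw [C5_P hG hW, C5_Q hG hW]
  unfold dmob
  obtain ⟨a1, a2, a3⟩ := C5_inv_inv (hG.det_ne' hW)
  obtain ⟨b1, b2, b3⟩ := C5_inv_inv (hG.det_ne hW)
  generalize G.toBlocks₁₁ᴴ + W * G.toBlocks₁₂ᴴ = β at *
  generalize G.toBlocks₂₁ * W + G.toBlocks₂₂ = γ at *
  have c1 : γᴴ * (γ⁻¹)ᴴ = 1 := by
    rw [← Matrix.conjTranspose_mul, b1, Matrix.conjTranspose_one]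
  have c2 : (β⁻¹)ᴴ * βᴴ = 1 := by
    rw [← Matrix.conjTranspose_mul, a2, Matrix.conjTranspose_one]
  calc trace (βᴴ * (1 - W * Wᴴ)⁻¹ * β * (β⁻¹ * U * γ⁻¹) * (γ * (1 - Wᴴ * W)⁻¹ * γᴴ) * (β⁻¹ * V * γ⁻¹)ᴴ)
      = trace (βᴴ * (1 - W * Wᴴ)⁻¹ * (β * β⁻¹) * U * (γ⁻¹ * γ) * (1 - Wᴴ * W)⁻¹ * (γᴴ * (γ⁻¹)ᴴ) * Vᴴ * (β⁻¹)ᴴ) := by
        simp only [Matrix.conjTranspose_mul, Matrix.mul_assoc]
    _ = trace (βᴴ * ((1 - W * Wᴴ)⁻¹ * U * (1 - Wᴴ * W)⁻¹ * Vᴴ * (β⁻¹)ᴴ)) := by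
        rw [a2, b1, c1]
        simp only [Matrix.mul_one, Matrix.mul_assoc]
    _ = trace ((1 - W * Wᴴ)⁻¹ * U * (1 - Wᴴ * W)⁻¹ * Vᴴ * ((β⁻¹)ᴴ * βᴴ)) := by
        rw [Matrix.trace_mul_comm]
        simp only [Matrix.mul_assoc]
    _ = trace ((1 - W * Wᴴ)⁻¹ * U * (1 - Wᴴ * W)⁻¹ * Vᴴ) := by
        rw [c2, Matrix.mul_one]

theorem ode_mob (hG : IsU G) {κ : ℝ} {x x' : ℝ → Matrix m n ℂ} (h : Ode κ x x') :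
    Ode κ (fun t => mob G (x t)) (fun t => dmob G (x t) (x' t)) := by
  refine ⟨fun t => ball_mob hG (h.mem t), fun t => HD_mob hG (h.vel t) (h.mem t), fun t => ?_⟩
  have hW := h.mem t
  have hv := h.vel t
  have h1 : HD (fun s => G.toBlocks₁₁ᴴ + x s * G.toBlocks₁₂ᴴ) (0 + x' t * G.toBlocks₁₂ᴴ) t :=
    (HD.const G.toBlocks₁₁ᴴ t).add (HD.mul_const hv G.toBlocks₁₂ᴴ)
  have h2 : HD (fun s => G.toBlocks₂₁ * x s + G.toBlocks₂₂) (G.toBlocks₂₁ * x' t + 0) t :=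
    (HD.const_mul G.toBlocks₂₁ hv).add (HD.const G.toBlocks₂₂ t)
  have h3 := ((h1.inv (hG.det_ne' hW)).mul (h.acc t)).mul (h2.inv (hG.det_ne hW))
  refine HD.congr_deriv h3 ?_
  show _ = ((κ : ℂ) * Complex.I) • dmob G (x t) (x' t) -
    (2 : ℂ) • (dmob G (x t) (x' t) * (1 - (mob G (x t))ᴴ * mob G (x t))⁻¹ * (mob G (x t))ᴴ * dmob G (x t) (x' t))
  obtain ⟨a1, a2, a3⟩ := C5_inv_inv (hG.det_ne' hW)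
  obtain ⟨b1, b2, b3⟩ := C5_inv_inv (hG.det_ne hW)
  have q1 : (1 - (x t)ᴴ * x t)⁻¹ * (1 - (x t)ᴴ * x t) = 1 := (C5_inv_inv hW.det_ne).1
  -- `δ C = Bᴴ α`
  have e1 : (G.toBlocks₂₁ * x t + G.toBlocks₂₂)⁻¹ * G.toBlocks₂₁ =
      G.toBlocks₁₂ᴴ * (G.toBlocks₁₁ᴴ + x t * G.toBlocks₁₂ᴴ)⁻¹ := by
    have e0 : (G.toBlocks₂₁ * x t + G.toBlocks₂₂) * G.toBlocks₁₂ᴴ =
        G.toBlocks₂₁ * (G.toBlocks₁₁ᴴ + x t * G.toBlocks₁₂ᴴ) := by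
      rw [Matrix.add_mul, Matrix.mul_add, ← hG.c21, Matrix.mul_assoc, add_comm]
    calc (G.toBlocks₂₁ * x t + G.toBlocks₂₂)⁻¹ * G.toBlocks₂₁
        = (G.toBlocks₂₁ * x t + G.toBlocks₂₂)⁻¹ * (G.toBlocks₂₁ * (G.toBlocks₁₁ᴴ + x t * G.toBlocks₁₂ᴴ)) *
            (G.toBlocks₁₁ᴴ + x t * G.toBlocks₁₂ᴴ)⁻¹ := by
          rw [Matrix.mul_assoc, Matrix.mul_assoc, a2, Matrix.mul_one]
      _ = (G.toBlocks₂₁ * x t + G.toBlocks₂₂)⁻¹ * ((G.toBlocks₂₁ * x t + G.toBlocks₂₂) * G.toBlocks₁₂ᴴ) *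
            (G.toBlocks₁₁ᴴ + x t * G.toBlocks₁₂ᴴ)⁻¹ := by rw [e0]
      _ = G.toBlocks₁₂ᴴ * (G.toBlocks₁₁ᴴ + x t * G.toBlocks₁₂ᴴ)⁻¹ := by
          rw [← Matrix.mul_assoc, b1, Matrix.one_mul]
  -- `δ Q_Z Zᴴ α = Q Wᴴ + Bᴴ α`
  have e2 : (G.toBlocks₂₁ * x t + G.toBlocks₂₂)⁻¹ *
      ((1 - (mob G (x t))ᴴ * mob G (x t))⁻¹ * (mob G (x t))ᴴ) *
        (G.toBlocks₁₁ᴴ + x t * G.toBlocks₁₂ᴴ)⁻¹ =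
      (1 - (x t)ᴴ * x t)⁻¹ * (x t)ᴴ + G.toBlocks₁₂ᴴ * (G.toBlocks₁₁ᴴ + x t * G.toBlocks₁₂ᴴ)⁻¹ := by
    have f1 : (G.toBlocks₂₁ * x t + G.toBlocks₂₂)ᴴ * (mob G (x t))ᴴ =
        (x t)ᴴ * (G.toBlocks₁₁ᴴ + x t * G.toBlocks₁₂ᴴ) + (1 - (x t)ᴴ * x t) * G.toBlocks₁₂ᴴ := by
      rw [← Matrix.conjTranspose_mul]
      unfold mob
      rw [Matrix.mul_assoc, b1, Matrix.mul_one]
      simp only [Matrix.conjTranspose_add, Matrix.conjTranspose_mul, Matrix.mul_add, Matrix.sub_mul,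
        Matrix.one_mul, Matrix.mul_assoc]
      abel
    rw [C5_Q hG hW]
    calc (G.toBlocks₂₁ * x t + G.toBlocks₂₂)⁻¹ *
        ((G.toBlocks₂₁ * x t + G.toBlocks₂₂) * (1 - (x t)ᴴ * x t)⁻¹ * (G.toBlocks₂₁ * x t + G.toBlocks₂₂)ᴴ *
          (mob G (x t))ᴴ) * (G.toBlocks₁₁ᴴ + x t * G.toBlocks₁₂ᴴ)⁻¹
        = ((G.toBlocks₂₁ * x t + G.toBlocks₂₂)⁻¹ * (G.toBlocks₂₁ * x t + G.toBlocks₂₂)) *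
          ((1 - (x t)ᴴ * x t)⁻¹ * ((G.toBlocks₂₁ * x t + G.toBlocks₂₂)ᴴ *
          (mob G (x t))ᴴ)) * (G.toBlocks₁₁ᴴ + x t * G.toBlocks₁₂ᴴ)⁻¹ := by
          simp only [Matrix.mul_assoc]
      _ = (1 - (x t)ᴴ * x t)⁻¹ * (x t)ᴴ * ((G.toBlocks₁₁ᴴ + x t * G.toBlocks₁₂ᴴ) *
            (G.toBlocks₁₁ᴴ + x t * G.toBlocks₁₂ᴴ)⁻¹) +
          ((1 - (x t)ᴴ * x t)⁻¹ * (1 - (x t)ᴴ * x t)) * (G.toBlocks₁₂ᴴ *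
            (G.toBlocks₁₁ᴴ + x t * G.toBlocks₁₂ᴴ)⁻¹) := by
          rw [b1, Matrix.one_mul, f1]
          simp only [Matrix.mul_add, Matrix.add_mul, Matrix.mul_assoc]
      _ = _ := by rw [a2, q1, Matrix.mul_one, Matrix.one_mul]
  have e3 : dmob G (x t) (x' t) * (1 - (mob G (x t))ᴴ * mob G (x t))⁻¹ * (mob G (x t))ᴴ * dmob G (x t) (x' t) =
      (G.toBlocks₁₁ᴴ + x t * G.toBlocks₁₂ᴴ)⁻¹ * x' t * ((1 - (x t)ᴴ * x t)⁻¹ * (x t)ᴴ) * x' t *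
        (G.toBlocks₂₁ * x t + G.toBlocks₂₂)⁻¹ +
      (G.toBlocks₁₁ᴴ + x t * G.toBlocks₁₂ᴴ)⁻¹ * x' t * (G.toBlocks₁₂ᴴ * (G.toBlocks₁₁ᴴ + x t * G.toBlocks₁₂ᴴ)⁻¹) * x' t *
        (G.toBlocks₂₁ * x t + G.toBlocks₂₂)⁻¹ := by
    unfold dmob
    calc (G.toBlocks₁₁ᴴ + x t * G.toBlocks₁₂ᴴ)⁻¹ * x' t * (G.toBlocks₂₁ * x t + G.toBlocks₂₂)⁻¹ *
        (1 - (mob G (x t))ᴴ * mob G (x t))⁻¹ * (mob G (x t))ᴴ *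
        ((G.toBlocks₁₁ᴴ + x t * G.toBlocks₁₂ᴴ)⁻¹ * x' t * (G.toBlocks₂₁ * x t + G.toBlocks₂₂)⁻¹)
        = (G.toBlocks₁₁ᴴ + x t * G.toBlocks₁₂ᴴ)⁻¹ * x' t * ((G.toBlocks₂₁ * x t + G.toBlocks₂₂)⁻¹ *
            ((1 - (mob G (x t))ᴴ * mob G (x t))⁻¹ * (mob G (x t))ᴴ) *
            (G.toBlocks₁₁ᴴ + x t * G.toBlocks₁₂ᴴ)⁻¹) * (x' t * (G.toBlocks₂₁ * x t + G.toBlocks₂₂)⁻¹) := by
          simp only [Matrix.mul_assoc]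
      _ = _ := by
          rw [e2]
          simp only [Matrix.mul_add, Matrix.add_mul, Matrix.mul_assoc]
  rw [e3]
  have e4 : (G.toBlocks₁₁ᴴ + x t * G.toBlocks₁₂ᴴ)⁻¹ * x' t *
      ((G.toBlocks₂₁ * x t + G.toBlocks₂₂)⁻¹ * (G.toBlocks₂₁ * x' t) * (G.toBlocks₂₁ * x t + G.toBlocks₂₂)⁻¹) =
      (G.toBlocks₁₁ᴴ + x t * G.toBlocks₁₂ᴴ)⁻¹ * x' t * (G.toBlocks₁₂ᴴ * (G.toBlocks₁₁ᴴ + x t * G.toBlocks₁₂ᴴ)⁻¹) * x' t *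
        (G.toBlocks₂₁ * x t + G.toBlocks₂₂)⁻¹ := by
    rw [← e1]
    simp only [Matrix.mul_assoc]
  unfold dmob
  simp only [zero_add, add_zero]
  rw [Matrix.mul_neg, e4]
  generalize (G.toBlocks₁₁ᴴ + x t * G.toBlocks₁₂ᴴ)⁻¹ = α at *
  generalize (G.toBlocks₂₁ * x t + G.toBlocks₂₂)⁻¹ = δ at *
  simp only [Matrix.mul_assoc, Matrix.mul_add, Matrix.add_mul, Matrix.mul_sub, Matrix.sub_mul, Matrix.neg_mul,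
    Matrix.smul_mul, Matrix.mul_smul, smul_add, two_smul]
  abel

end Pool.Agent.MP_a98e84_gt.TG
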