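import Pool.Agent.Lib.MP_a98e84_gt.Mg.G001
import Pool.Agent.Lib.MP_a98e84_gt.TG.A0

/-!
# TASK TG F1: the curves `M E(t) · 0` solve the equation

(`flow_isU`) `ξ = xi κ μ` satisfies `ξᴴ J + J ξ = 0`, so the derivative of `(E t)ᴴ J (E t)` is `(E t)ᴴ (ξᴴ J + J ξ) (E t)`... (`HD (E t)` is `E t * ξ`; the derivative is `ξᴴ (E t)ᴴ J E t + (E t)ᴴ J E t ξ`): put `Y t = (E t)ᴴ J (E t)`,
`Y' = ξᴴ Y + Y ξ`. To see `Y = J`: `ξ E t = E t ξ` (`comm` with `k = ξ`), so `Y t = (E t)ᴴ J E t` and `Y' = (E t)ᴴ (ξᴴ J + J ξ) E t = 0`; the entries have derivative `0`, so they are constant, `Y t = Y 0 = J`.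
(`frame_ode`) Let `A, B, C, D` be the blocks of `N t = M * E t` (`IsU`); `N' = N ξ`: with `θ = iκ/2`: `A' = θ A + B μᴴ`, `B' = A μ - θ B`, `C' = θ C + D μᴴ`, `D' = C μ - θ D`. `x = B D⁻¹ = mob N 0`. By `mob_key` (with `W = 0`): `A - x C = (Aᴴ)⁻¹`. So
`x' = B' D⁻¹ - B D⁻¹ D' D⁻¹ = (A μ - θ B - x C μ + θ x D) D⁻¹ = (Aᴴ)⁻¹ μ D⁻¹ = dmob N 0 μ`. Next, `(Aᴴ)' = -θ Aᴴ + μ Bᴴ` (`conj θ = -θ`), so
`x'' = -(Aᴴ)⁻¹ (-θ Aᴴ + μ Bᴴ) (Aᴴ)⁻¹ μ D⁻¹ - (Aᴴ)⁻¹ μ D⁻¹ (C μ - θ D) D⁻¹ = 2 θ x' - (Aᴴ)⁻¹ μ (Bᴴ (Aᴴ)⁻¹ + D⁻¹ C) μ D⁻¹`, and `D⁻¹ C = Bᴴ (Aᴴ)⁻¹` (`c21`). And `Q = (1 - xᴴ x)⁻¹ = D Dᴴ` (`one_sub_mob` with `W = Z = 0`), `Q xᴴ = D Dᴴ (Dᴴ)⁻¹ Bᴴ = D Bᴴ`, so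
`x' Q xᴴ x' = (Aᴴ)⁻¹ μ D⁻¹ D Bᴴ (Aᴴ)⁻¹ μ D⁻¹ = (Aᴴ)⁻¹ μ Bᴴ (Aᴴ)⁻¹ μ D⁻¹`. So `x'' = iκ x' - 2 x' Q xᴴ x'`.
-/

set_option autoImplicit false

namespace Pool.Agent.MP_a98e84_gt.TG

open Matrix
open scoped ComplexOrder

variable {m n : Type*} [Fintype m] [Fintype n] [DecidableEq m] [DecidableEq n]


variable {κ : ℝ} {μ : Matrix m n ℂ} {E : ℝ → Matrix (m ⊕ n) (m ⊕ n) ℂ}

private theorem F1_const {a b : Type*} {F : ℝ → Matrix a b ℂ} (h : ∀ t, HD F 0 t) (t : ℝ) : F t = F 0 := by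
  ext i j
  have h1 : ∀ s, HasDerivAt (fun r => F r i j) 0 s := fun s => by simpa using h s i j
  exact is_const_of_deriv_eq_zero (fun s => (h1 s).differentiableAt) (fun s => (h1 s).deriv) t 0

private theorem F1_xi : (xi κ μ)ᴴ * JJ m n + JJ m n * xi κ μ = 0 := by
  unfold xi JJ
  rw [Matrix.fromBlocks_conjTranspose, Matrix.fromBlocks_multiply, Matrix.fromBlocks_multiply, Matrix.fromBlocks_add]
  rw [← Matrix.fromBlocks_zero]
  congr 1 <;> simp [Matrix.conjTranspose_smul]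

theorem flow_isU (hE : IsFlow (xi κ μ) E) (t : ℝ) : IsU (E t) := by
  have hc : ∀ s, xi κ μ * E s = E s * xi κ μ := hE.comm (xi κ μ) rfl
  have hY : ∀ s, HD (fun r => (E r)ᴴ * JJ m n * E r) 0 s := by
    intro s
    refine ((((hE.der s).conj).mul_const (JJ m n)).mul (hE.der s)).congr_deriv ?_
    rw [← hc s, Matrix.conjTranspose_mul]
    have e : (E s)ᴴ * (xi κ μ)ᴴ * JJ m n * E s + (E s)ᴴ * JJ m n * (xi κ μ * E s) =
        (E s)ᴴ * ((xi κ μ)ᴴ * JJ m n + JJ m n * xi κ μ) * E s := by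
      simp only [Matrix.mul_add, Matrix.add_mul, Matrix.mul_assoc]
    rw [e, F1_xi]
    simp
  have h := F1_const hY t
  show (E t)ᴴ * JJ m n * E t = JJ m n
  have h0 : (E 0)ᴴ * JJ m n * E 0 = JJ m n := by rw [hE.zero]; simp
  exact h.trans h0

private theorem F1_blocks (N : Matrix (m ⊕ n) (m ⊕ n) ℂ) : N * xi κ μ =
    fromBlocks ((((κ / 2 : ℝ) : ℂ) * Complex.I) • N.toBlocks₁₁ + N.toBlocks₁₂ * μᴴ)
      (N.toBlocks₁₁ * μ - (((κ / 2 : ℝ) : ℂ) * Complex.I) • N.toBlocks₁₂)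
      ((((κ / 2 : ℝ) : ℂ) * Complex.I) • N.toBlocks₂₁ + N.toBlocks₂₂ * μᴴ)
      (N.toBlocks₂₁ * μ - (((κ / 2 : ℝ) : ℂ) * Complex.I) • N.toBlocks₂₂) := by
  conv_lhs => rw [← Matrix.fromBlocks_toBlocks N]
  unfold xi
  rw [Matrix.fromBlocks_multiply]
  congr 1 <;> simp [sub_eq_add_neg]

theorem frame_ode {M : Matrix (m ⊕ n) (m ⊕ n) ℂ} (hM : IsU M) (hE : IsFlow (xi κ μ) E) :
    Ode κ (fun t => mob (M * E t) 0) (fun t => dmob (M * E t) 0 μ) := by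
  have hN : ∀ t, IsU (M * E t) := fun t => hM.mul (flow_isU hE t)
  have hder : ∀ t, HD (fun s => M * E s) ((M * E t) * xi κ μ) t := by
    intro t
    exact ((hE.der t).const_mul M).congr_deriv (by rw [Matrix.mul_assoc])
  set N : ℝ → Matrix (m ⊕ n) (m ⊕ n) ℂ := fun t => M * E t with hNdef
  have hder' : ∀ t, HD N (N t * xi κ μ) t := hder
  have hb0 : Ball (0 : Matrix m n ℂ) := ball_zero
  set θ : ℂ := ((κ / 2 : ℝ) : ℂ) * Complex.I with hθ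
  have hθc : (starRingEnd ℂ) θ = -θ := by
    rw [hθ, map_mul, Complex.conj_ofReal, Complex.conj_I]; ring
  have hA : ∀ t, HD (fun s => (N s).toBlocks₁₁) (θ • (N t).toBlocks₁₁ + (N t).toBlocks₁₂ * μᴴ) t := by
    intro t i j
    have h := hder' t (Sum.inl i) (Sum.inl j)
    rw [F1_blocks] at h
    exact h
  have hB : ∀ t, HD (fun s => (N s).toBlocks₁₂) ((N t).toBlocks₁₁ * μ - θ • (N t).toBlocks₁₂) t := by
    intro t i j
    have h := hder' t (Sum.inl i) (Sum.inr j)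
    rw [F1_blocks] at h
    exact h
  have hD : ∀ t, HD (fun s => (N s).toBlocks₂₂) ((N t).toBlocks₂₁ * μ - θ • (N t).toBlocks₂₂) t := by
    intro t i j
    have h := hder' t (Sum.inr i) (Sum.inr j)
    rw [F1_blocks] at h
    exact h
  have hdetD : ∀ t, ((N t).toBlocks₂₂).det ≠ 0 := by
    intro t
    have h := (hN t).det_ne hb0
    simpa using h
  have hdetA : ∀ t, ((N t).toBlocks₁₁ᴴ).det ≠ 0 := by
    intro t
    have h := (hN t).det_ne' hb0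
    simpa using h
  have hx : ∀ t, mob (N t) 0 = (N t).toBlocks₁₂ * ((N t).toBlocks₂₂)⁻¹ := by
    intro t
    unfold mob
    simp
  have hx' : ∀ t, dmob (N t) 0 μ = ((N t).toBlocks₁₁ᴴ)⁻¹ * μ * ((N t).toBlocks₂₂)⁻¹ := by
    intro t
    unfold dmob
    simp
  -- relations at time t
  have hdD : ∀ t, ((N t).toBlocks₂₂)⁻¹ * (N t).toBlocks₂₂ = 1 := fun t =>
    Matrix.nonsing_inv_mul _ (isUnit_iff_ne_zero.mpr (hdetD t))
  have hDd : ∀ t, (N t).toBlocks₂₂ * ((N t).toBlocks₂₂)⁻¹ = 1 := fun t =>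
    Matrix.mul_nonsing_inv _ (isUnit_iff_ne_zero.mpr (hdetD t))
  have haA : ∀ t, ((N t).toBlocks₁₁ᴴ)⁻¹ * (N t).toBlocks₁₁ᴴ = 1 := fun t =>
    Matrix.nonsing_inv_mul _ (isUnit_iff_ne_zero.mpr (hdetA t))
  have hAa : ∀ t, (N t).toBlocks₁₁ᴴ * ((N t).toBlocks₁₁ᴴ)⁻¹ = 1 := fun t =>
    Matrix.mul_nonsing_inv _ (isUnit_iff_ne_zero.mpr (hdetA t))
  have hkey : ∀ t, (N t).toBlocks₁₁ - (N t).toBlocks₁₂ * ((N t).toBlocks₂₂)⁻¹ * (N t).toBlocks₂₁ =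
      ((N t).toBlocks₁₁ᴴ)⁻¹ := by
    intro t
    have h := mob_key (hN t) hb0
    rw [← hx t]
    simpa using h
  refine ⟨fun t => ball_mob (hN t) hb0, fun t => ?_, fun t => ?_⟩
  · have h := (hB t).mul ((hD t).inv (hdetD t))
    have h' : HD (fun s => mob (N s) 0) (dmob (N t) 0 μ) t := by
      refine (h.congr (fun s => hx s)).congr_deriv ?_
      rw [hx' t, ← hkey t]
      have e1 := hdD t
      have e2 := hDd t
      generalize (N t).toBlocks₁₁ = A at *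
      generalize (N t).toBlocks₁₂ = B at *
      generalize (N t).toBlocks₂₁ = C at *
      generalize (N t).toBlocks₂₂ = D at *
      have e3 : ∀ Z : Matrix n n ℂ, D⁻¹ * (D * Z) = Z := fun Z => by
        rw [← Matrix.mul_assoc, e1, Matrix.one_mul]
      simp only [Matrix.mul_add, Matrix.add_mul, Matrix.mul_sub, Matrix.sub_mul, Matrix.mul_smul, Matrix.smul_mul,
        Matrix.mul_neg, Matrix.mul_assoc, e3]
      abel
    exact h'
  · have h := ((((hA t).conj).inv (hdetA t)).mul_const μ).mul ((hD t).inv (hdetD t))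
    have h' : HD (fun s => dmob (N s) 0 μ) (((κ : ℂ) * Complex.I) • dmob (N t) 0 μ -
        (2 : ℂ) • (dmob (N t) 0 μ * (1 - (mob (N t) 0)ᴴ * mob (N t) 0)⁻¹ * (mob (N t) 0)ᴴ * dmob (N t) 0 μ)) t := by
      refine (h.congr (fun s => hx' s)).congr_deriv ?_
      have hq : (1 - (mob (N t) 0)ᴴ * mob (N t) 0)⁻¹ = (N t).toBlocks₂₂ * (N t).toBlocks₂₂ᴴ := by
        have h1 := one_sub_mob (hN t) hb0 hb0
        rw [h1]
        apply Matrix.inv_eq_left_inv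
        have e2 := hDd t
        have e1 := hdD t
        have e3 : ((N t).toBlocks₂₂)ᴴ * (((N t).toBlocks₂₂)⁻¹)ᴴ = 1 := by
          rw [← Matrix.conjTranspose_mul, e1, Matrix.conjTranspose_one]
        have e4 : (M * E t).toBlocks₂₁ * (0 : Matrix m n ℂ) + (M * E t).toBlocks₂₂ = (N t).toBlocks₂₂ := by simp [hNdef]
        rw [e4]
        have e5 : (1 : Matrix n n ℂ) - (0 : Matrix m n ℂ)ᴴ * (0 : Matrix m n ℂ) = 1 := by simp
        rw [e5, Matrix.mul_one]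
        calc (N t).toBlocks₂₂ * ((N t).toBlocks₂₂)ᴴ * ((((N t).toBlocks₂₂)⁻¹)ᴴ * ((N t).toBlocks₂₂)⁻¹)
            = (N t).toBlocks₂₂ * (((N t).toBlocks₂₂)ᴴ * (((N t).toBlocks₂₂)⁻¹)ᴴ) * ((N t).toBlocks₂₂)⁻¹ := by
              simp only [Matrix.mul_assoc]
          _ = 1 := by rw [e3, Matrix.mul_one, e2]
      have hc21 : ((N t).toBlocks₂₂)⁻¹ * (N t).toBlocks₂₁ = (N t).toBlocks₁₂ᴴ * ((N t).toBlocks₁₁ᴴ)⁻¹ := by
        have h2 := (hN t).c21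
        calc ((N t).toBlocks₂₂)⁻¹ * (N t).toBlocks₂₁
            = ((N t).toBlocks₂₂)⁻¹ * ((N t).toBlocks₂₁ * (N t).toBlocks₁₁ᴴ) * ((N t).toBlocks₁₁ᴴ)⁻¹ := by
              rw [Matrix.mul_assoc, Matrix.mul_assoc, hAa t, Matrix.mul_one]
          _ = (((N t).toBlocks₂₂)⁻¹ * (N t).toBlocks₂₂) * (N t).toBlocks₁₂ᴴ * ((N t).toBlocks₁₁ᴴ)⁻¹ := by
              rw [show (N t).toBlocks₂₁ * (N t).toBlocks₁₁ᴴ = (N t).toBlocks₂₂ * (N t).toBlocks₁₂ᴴ from h2]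
              simp only [Matrix.mul_assoc]
          _ = _ := by rw [hdD t, Matrix.one_mul]
      rw [hq, hx t, hx' t]
      have e1 := hdD t
      have e2 := hDd t
      have e6 := haA t
      have e8 := hAa t
      have hκ : (κ : ℂ) * Complex.I = 2 * θ := by rw [hθ]; push_cast; ring
      rw [hκ]
      generalize (N t).toBlocks₁₁ = A at *
      generalize (N t).toBlocks₁₂ = B at *
      generalize (N t).toBlocks₂₁ = C at *
      generalize (N t).toBlocks₂₂ = D at *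
      have e3 : ∀ Z : Matrix n n ℂ, D⁻¹ * (D * Z) = Z := fun Z => by
        rw [← Matrix.mul_assoc, e1, Matrix.one_mul]
      have e3' : ∀ Z : Matrix n m ℂ, D⁻¹ * (D * Z) = Z := fun Z => by
        rw [← Matrix.mul_assoc, e1, Matrix.one_mul]
      have e4 : ∀ Z : Matrix n m ℂ, Dᴴ * ((D⁻¹)ᴴ * Z) = Z := fun Z => by
        rw [← Matrix.mul_assoc, ← Matrix.conjTranspose_mul, e1, Matrix.conjTranspose_one, Matrix.one_mul]
      have e5 : ∀ Z : Matrix m n ℂ, D⁻¹ * (C * Z) = Bᴴ * ((Aᴴ)⁻¹ * Z) := fun Z => by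
        rw [← Matrix.mul_assoc, hc21, Matrix.mul_assoc]
      have e7 : ∀ Z : Matrix m m ℂ, (Aᴴ)⁻¹ * (Aᴴ * Z) = Z := fun Z => by
        rw [← Matrix.mul_assoc, e6, Matrix.one_mul]
      have e7' : ∀ Z : Matrix m n ℂ, (Aᴴ)⁻¹ * (Aᴴ * Z) = Z := fun Z => by
        rw [← Matrix.mul_assoc, e6, Matrix.one_mul]
      have hst : star θ = -θ := hθc
      simp only [Matrix.conjTranspose_add, Matrix.conjTranspose_smul, Matrix.conjTranspose_mul,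
        Matrix.conjTranspose_conjTranspose, hst, Matrix.mul_add, Matrix.add_mul, Matrix.mul_sub, Matrix.sub_mul,
        Matrix.mul_smul, Matrix.smul_mul, Matrix.mul_neg, Matrix.neg_mul, Matrix.mul_assoc, e3, e3', e4, e5, e7, e7']
      module
    exact h'

end Pool.Agent.MP_a98e84_gt.TG
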