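import Pool.Agent.Lib.MP_a98e84_gt.TG.Defs

/-!
# TASK TG B4b: hyperbolic solutions in the unit disc

Let `ρ = s / T > 0` and let `y` be real with `|y| < 1` and `y / (1 - y²) = -κ / (4 ρ)` (intermediate value theorem: `y ↦ y / (1 - y²)` is continuous on `(-1, 1)` and takes all real values; or explicitly: with `c = κ / (4 ρ)`,
`y = -2 c / (1 + √(1 + 4 c²))`). Put `τ t = tanh (ρ t)` and `w t = (i y + τ t) / (1 + τ t * i y)`. Then `|w t| < 1`, `w' = ρ (1 - w²)` (`tanh' = 1 - tanh²`), and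
`Im w / (1 - |w|²) = y / (1 - y²)` for all `t` (`|1 + i τ y|² = 1 + τ² y²`, `Im w = y (1 - τ²) / (1 + τ² y²)`, `1 - |w|² = (1 - y²)(1 - τ²) / (1 + τ² y²)`). The equation: `w'' = -2 ρ w w'` and
`i κ w' - 2 conj w w'^2 / (1 - |w|²) = w' (i κ - 2 ρ conj w (1 - w²) / (1 - |w|²))`; `-2 ρ w + 2 ρ conj w (1 - w²) / (1 - |w|²) = 2 ρ (conj w - w) / (1 - |w|²) = -4 i ρ Im w / (1 - |w|²) = i κ`.
Translation: `τ (t + T) = (τ t + tanh s) / (1 + τ t tanh s)` (addition formula of `tanh`, from those of `sinh`, `cosh`), so `w (t + T) = (w t + tanh s) / (1 + tanh s * w t)` (composition of the real Moebius maps; `field_simp`, all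
denominators are not `0`). Speed: `|w'|² / (1 - |w|²)² = ρ² |1 - w²|² / (1 - |w|²)²` and `|1 - w²|² = (1 - |w|²)² + 4 (Im w)²`, so it is `ρ² (1 + 4 (y / (1 - y²))²) = ρ² + κ² / 4`.
-/

set_option autoImplicit false

namespace Pool.Agent.MP_a98e84_gt.TG

open Matrix
open scoped ComplexOrder

private theorem B4b_tanh_der (ρ t : ℝ) : HasDerivAt (fun t : ℝ => Real.tanh (ρ * t))
    (ρ * (1 - Real.tanh (ρ * t) ^ 2)) t := by
  have h1 : HasDerivAt (fun t : ℝ => ρ * t) ρ t := by simpa using (hasDerivAt_id t).const_mul ρ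
  have h2 : HasDerivAt (fun t : ℝ => Real.sinh (ρ * t)) (Real.cosh (ρ * t) * ρ) t :=
    (Real.hasDerivAt_sinh (ρ * t)).comp t h1
  have h3 : HasDerivAt (fun t : ℝ => Real.cosh (ρ * t)) (Real.sinh (ρ * t) * ρ) t :=
    (Real.hasDerivAt_cosh (ρ * t)).comp t h1
  have h4 := h2.div h3 (Real.cosh_pos _).ne'
  have h5 : (fun t : ℝ => Real.tanh (ρ * t)) =
      (fun t : ℝ => Real.sinh (ρ * t)) / fun t : ℝ => Real.cosh (ρ * t) := by
    funext t
    exact Real.tanh_eq_sinh_div_cosh _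
  rw [h5]
  refine h4.congr_deriv ?_
  rw [Real.tanh_eq_sinh_div_cosh]
  have := (Real.cosh_pos (ρ * t)).ne'
  field_simp

private theorem B4b_tanh_add (a b : ℝ) : Real.tanh (a + b) =
    (Real.tanh a + Real.tanh b) / (1 + Real.tanh a * Real.tanh b) := by
  have ha := Real.cosh_pos a
  have hb := Real.cosh_pos b
  have hab := Real.cosh_pos (a + b)
  rw [Real.cosh_add] at hab
  rw [Real.tanh_eq_sinh_div_cosh, Real.tanh_eq_sinh_div_cosh, Real.tanh_eq_sinh_div_cosh,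
    Real.sinh_add, Real.cosh_add]
  have h1 : 1 + Real.sinh a / Real.cosh a * (Real.sinh b / Real.cosh b) =
      (Real.cosh a * Real.cosh b + Real.sinh a * Real.sinh b) / (Real.cosh a * Real.cosh b) := by
    field_simp
  have h2 : Real.sinh a / Real.cosh a + Real.sinh b / Real.cosh b =
      (Real.sinh a * Real.cosh b + Real.cosh a * Real.sinh b) / (Real.cosh a * Real.cosh b) := by
    field_simp
  rw [h1, h2, div_div_div_cancel_right₀ (mul_pos ha hb).ne']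

/-- the point of the circle -/
private noncomputable def B4b_w (y τ : ℝ) : ℂ :=
  (Complex.I * y + τ) / (1 + τ * (Complex.I * y))

private theorem B4b_den (y τ : ℝ) : (1 : ℂ) + τ * (Complex.I * y) ≠ 0 := by
  intro h
  have h1 := congrArg Complex.re h
  simp at h1

private theorem B4b_w_eq (y τ : ℝ) : B4b_w y τ =
    ⟨τ * (1 + y ^ 2) / (1 + τ ^ 2 * y ^ 2), y * (1 - τ ^ 2) / (1 + τ ^ 2 * y ^ 2)⟩ := by
  have hd : (1 + τ ^ 2 * y ^ 2 : ℝ) ≠ 0 := by positivity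
  rw [B4b_w, div_eq_iff (B4b_den y τ)]
  apply Complex.ext
  · simp
    field_simp
    ring
  · simp
    field_simp
    ring

private theorem B4b_N (y τ : ℝ) : 1 - ‖B4b_w y τ‖ ^ 2 =
    (1 - y ^ 2) * (1 - τ ^ 2) / (1 + τ ^ 2 * y ^ 2) := by
  have hd : (1 + τ ^ 2 * y ^ 2 : ℝ) ≠ 0 := by positivity
  rw [Complex.sq_norm, Complex.normSq_apply, B4b_w_eq]
  field_simp
  ring

private theorem B4b_norm (z : ℂ) : ‖1 - z ^ 2‖ ^ 2 = (1 - ‖z‖ ^ 2) ^ 2 + 4 * z.im ^ 2 := by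
  rw [Complex.sq_norm, Complex.sq_norm, Complex.normSq_apply, Complex.normSq_apply]
  simp [sq]
  ring

private theorem B4b_acc {κ ρ N : ℝ} {w : ℂ} (hN : N = 1 - ‖w‖ ^ 2) (h0 : N ≠ 0)
    (hF : κ * N = -4 * ρ * w.im) :
    (κ : ℂ) * Complex.I * (ρ * (1 - w ^ 2)) -
      2 * (starRingEnd ℂ) w * (ρ * (1 - w ^ 2)) ^ 2 / ((1 - ‖w‖ ^ 2 : ℝ) : ℂ) =
    ρ * (-(2 * w * (ρ * (1 - w ^ 2)))) := by
  rw [← hN]
  have h1 : (N : ℂ) = 1 - w * (starRingEnd ℂ) w := by
    rw [hN, Complex.mul_conj, ← Complex.sq_norm]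
    push_cast
    rfl
  have h2 : (κ : ℂ) * N = -4 * ρ * (w.im : ℂ) := by
    exact_mod_cast congrArg Complex.ofReal hF
  have h3 : 2 * Complex.I * (w.im : ℂ) = w - (starRingEnd ℂ) w := by
    rw [Complex.sub_conj]
    push_cast
    ring
  have h4 : (N : ℂ) ≠ 0 := by exact_mod_cast h0
  have h5 : (κ : ℂ) * Complex.I * N = -2 * ρ * (w - (starRingEnd ℂ) w) := by
    linear_combination Complex.I * h2 - 2 * ρ * h3
  rw [sub_eq_iff_eq_add, ← sub_eq_iff_eq_add', eq_div_iff h4]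
  linear_combination (ρ * (1 - w ^ 2)) * h5 - 2 * ρ ^ 2 * (1 - w ^ 2) * w * h1 * (-1)

private theorem B4b_tr (y τ h : ℝ) (h1 : 1 + τ * h ≠ 0) :
    B4b_w y ((τ + h) / (1 + τ * h)) = (B4b_w y τ + (h : ℂ)) / (1 + (h : ℂ) * B4b_w y τ) := by
  have hc : (1 : ℂ) + τ * h ≠ 0 := by exact_mod_cast h1
  have hD := B4b_den y τ
  have hl : B4b_w y ((τ + h) / (1 + τ * h)) = ((Complex.I * y) * (1 + τ * h) + τ + h) /
      (1 + τ * h + (τ + h) * (Complex.I * y)) := by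
    rw [B4b_w]
    push_cast
    have e1 : Complex.I * (y : ℂ) + ((τ : ℂ) + h) / (1 + τ * h) =
        ((Complex.I * y) * (1 + τ * h) + τ + h) / (1 + τ * h) := by
      field_simp
      ring
    have e2 : 1 + ((τ : ℂ) + h) / (1 + τ * h) * (Complex.I * y) =
        (1 + τ * h + (τ + h) * (Complex.I * y)) / (1 + τ * h) := by
      field_simp
    rw [e1, e2, div_div_div_cancel_right₀ hc]
  have hr : (B4b_w y τ + (h : ℂ)) / (1 + (h : ℂ) * B4b_w y τ) =
      ((Complex.I * y) * (1 + τ * h) + τ + h) / (1 + τ * h + (τ + h) * (Complex.I * y)) := by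
    rw [B4b_w]
    have e1 : (Complex.I * (y : ℂ) + τ) / (1 + τ * (Complex.I * y)) + h =
        ((Complex.I * y) * (1 + τ * h) + τ + h) / (1 + τ * (Complex.I * y)) := by
      rw [div_add' _ _ _ hD]
      congr 1
      ring
    have e2 : 1 + (h : ℂ) * ((Complex.I * (y : ℂ) + τ) / (1 + τ * (Complex.I * y))) =
        (1 + τ * h + (τ + h) * (Complex.I * y)) / (1 + τ * (Complex.I * y)) := by
      rw [← mul_div_assoc, add_div' _ _ _ hD]
      congr 1
      ring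
    rw [e1, e2, div_div_div_cancel_right₀ hD]
  rw [hl, hr]

theorem disc_hyp (κ : ℝ) {s T : ℝ} (hs : 0 < s) (hT : 0 < T) :
    ∃ w w' : ℝ → ℂ, DiscOde κ w w' ∧
      (∀ t, w (t + T) = (w t + (Real.tanh s : ℂ)) / (1 + (Real.tanh s : ℂ) * w t)) ∧
      ∀ t, ‖w' t‖ ^ 2 / (1 - ‖w t‖ ^ 2) ^ 2 = s ^ 2 / T ^ 2 + κ ^ 2 / 4 := by
  set ρ : ℝ := s / T with hρdef
  have hρ : 0 < ρ := div_pos hs hT
  obtain ⟨y, hy1, hy2⟩ : ∃ y : ℝ, y ^ 2 < 1 ∧ κ * (1 - y ^ 2) = -4 * ρ * y := by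
    set c : ℝ := κ / (4 * ρ) with hc
    set q : ℝ := √(1 + 4 * c ^ 2) with hq
    have hq2 : q ^ 2 = 1 + 4 * c ^ 2 := Real.sq_sqrt (by positivity)
    have hq0 : 0 ≤ q := Real.sqrt_nonneg _
    have hq1 : (0 : ℝ) < 1 + q := by linarith
    refine ⟨-2 * c / (1 + q), ?_, ?_⟩
    · rw [div_pow, div_lt_one (by positivity)]
      nlinarith
    · have hκ : κ = 4 * ρ * c := by
        rw [hc]; field_simp
      rw [hκ]
      have h1 : 1 - (-2 * c / (1 + q)) ^ 2 = 2 / (1 + q) := by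
        rw [div_pow]
        field_simp
        nlinarith
      rw [h1]
      field_simp
  set τ : ℝ → ℝ := fun t => Real.tanh (ρ * t) with hτ
  have hτ1 : ∀ t, τ t ^ 2 < 1 := fun t => Real.tanh_sq_lt_one _
  have hNpos : ∀ t, 0 < 1 - ‖B4b_w y (τ t)‖ ^ 2 := by
    intro t
    rw [B4b_N]
    have h1 := hτ1 t
    have h2 : 0 < 1 - y ^ 2 := by linarith
    have h3 : 0 < 1 - τ t ^ 2 := by linarith
    positivity
  have hF : ∀ t, κ * (1 - ‖B4b_w y (τ t)‖ ^ 2) = -4 * ρ * (B4b_w y (τ t)).im := by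
    intro t
    rw [B4b_N, B4b_w_eq]
    have hd : (1 + τ t ^ 2 * y ^ 2 : ℝ) ≠ 0 := by positivity
    field_simp
    linear_combination (1 - τ t ^ 2) * hy2
  have hder : ∀ t, HasDerivAt (fun t => B4b_w y (τ t)) (ρ * (1 - B4b_w y (τ t) ^ 2)) t := by
    intro t
    have h1 : HasDerivAt (fun t => ((τ t : ℝ) : ℂ)) ((ρ * (1 - τ t ^ 2) : ℝ) : ℂ) t :=
      (B4b_tanh_der ρ t).ofReal_comp
    have h2 : HasDerivAt (fun t => Complex.I * y + ((τ t : ℝ) : ℂ)) ((ρ * (1 - τ t ^ 2) : ℝ) : ℂ) t :=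
      h1.const_add _
    have h3 : HasDerivAt (fun t => (1 : ℂ) + ((τ t : ℝ) : ℂ) * (Complex.I * y))
        (((ρ * (1 - τ t ^ 2) : ℝ) : ℂ) * (Complex.I * y)) t := (h1.mul_const _).const_add _
    have h4 := h2.div h3 (B4b_den y (τ t))
    refine h4.congr_deriv ?_
    have hD := B4b_den y (τ t)
    rw [B4b_w]
    push_cast
    generalize Complex.I * (y : ℂ) = u at hD ⊢
    generalize ((τ t : ℝ) : ℂ) = v at hD ⊢
    generalize hE : 1 + v * u = E at hD ⊢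
    field_simp
    rw [← hE]
    ring
  refine ⟨fun t => B4b_w y (τ t), fun t => ρ * (1 - B4b_w y (τ t) ^ 2), ⟨?_, hder, ?_⟩, ?_, ?_⟩
  · intro t
    have h1 := hNpos t
    have h2 : ‖B4b_w y (τ t)‖ ^ 2 < 1 := by linarith
    have h3 := norm_nonneg (B4b_w y (τ t))
    nlinarith
  · intro t
    have h1 : HasDerivAt (fun t => (ρ : ℂ) * (1 - B4b_w y (τ t) ^ 2))
        (ρ * (-(2 * B4b_w y (τ t) * (ρ * (1 - B4b_w y (τ t) ^ 2))))) t := by
      have h2 := ((hder t).pow 2).const_sub 1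
      have h3 := h2.const_mul (ρ : ℂ)
      refine h3.congr_deriv ?_
      push_cast
      ring
    refine h1.congr_deriv ?_
    exact (B4b_acc rfl (hNpos t).ne' (hF t)).symm
  · intro t
    have h1 : τ (t + T) = (τ t + Real.tanh s) / (1 + τ t * Real.tanh s) := by
      have h2 : ρ * (t + T) = ρ * t + s := by
        rw [hρdef]; field_simp
      show Real.tanh (ρ * (t + T)) = _
      rw [h2, B4b_tanh_add]
    show B4b_w y (τ (t + T)) = (B4b_w y (τ t) + (Real.tanh s : ℂ)) / (1 + (Real.tanh s : ℂ) * B4b_w y (τ t))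
    rw [h1]
    refine B4b_tr y (τ t) (Real.tanh s) ?_
    have h3 := Real.abs_tanh_lt_one s
    have h4 := Real.abs_tanh_lt_one (ρ * t)
    have h5 : |τ t * Real.tanh s| < 1 := by
      rw [abs_mul]
      calc |τ t| * |Real.tanh s| ≤ 1 * |Real.tanh s| :=
            mul_le_mul_of_nonneg_right h4.le (abs_nonneg _)
        _ < 1 := by rw [one_mul]; exact h3
    have h6 := (abs_lt.1 h5).1
    exact ne_of_gt (by linarith)
  · intro t
    show ‖(ρ : ℂ) * (1 - B4b_w y (τ t) ^ 2)‖ ^ 2 / (1 - ‖B4b_w y (τ t)‖ ^ 2) ^ 2 = _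
    rw [norm_mul, mul_pow, B4b_norm, Complex.norm_real, Real.norm_eq_abs, sq_abs, ← div_pow,
      ← hρdef]
    have h0 := (hNpos t).ne'
    have h1 := hF t
    generalize (1 - ‖B4b_w y (τ t)‖ ^ 2) = N at h0 h1 ⊢
    generalize (B4b_w y (τ t)).im = v at h1 ⊢
    field_simp
    linear_combination (-(κ * N - 4 * ρ * v)) * h1

end Pool.Agent.MP_a98e84_gt.TG
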