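import Pool.Agent.Lib.MP_a98e84_gt.TG.A0
import Pool.Agent.Lib.MP_a98e84_gt.Mg.G001

/-!
# TASK TG A2: the Euler-Lagrange equation from the second order equation (one factor)

Write `P = (1 - W Wᴴ)⁻¹`, `Q = (1 - Wᴴ W)⁻¹`, `U = x'`; `P W = W Q`, `Wᴴ P = Q Wᴴ` (`P_mul`, `Q_mul`, adjoints), `P`, `Q` Hermitian.
(`hasDerivAt_hm`) Along `ε ↦ W + ε V`: `HD.inv` gives `P' = P (V Wᴴ + W Vᴴ) P`, `Q' = Q (Vᴴ W + Wᴴ V) Q` at `ε = 0`, so the derivative of `hm` is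
`tr (P (V Wᴴ + W Vᴴ) P U Q Uᴴ) + tr (P U Q (Vᴴ W + Wᴴ V) Q Uᴴ) = tr ((V Wᴴ + W Vᴴ) S) + tr ((Vᴴ W + Wᴴ V) R)` with the Hermitian matrices `S = P U Q Uᴴ P`, `R = Q Uᴴ P U Q`
(cyclicity of the trace); its real part is `2 Re tr (Vᴴ S W) + 2 Re tr (Vᴴ W R)` (`Re tr (V Wᴴ S) = Re conj (tr (Sᴴ W Vᴴ))= Re tr (Vᴴ S W)`), and `gr W U = S W + W R`.
(`el_of_ode`) Along a solution put `f = P U Q`; `hm (x, x', V) = tr (f Vᴴ)`. By the product rule (`HD.mul`, `HD.inv`, `HD.conj`)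
`f' = P (U Wᴴ + W Uᴴ) P U Q + P U' Q + P U Q (Uᴴ W + Wᴴ U) Q`, `U' = iκ U - 2 U Q Wᴴ U`. Since `S W = P U Q Uᴴ P W = P U Q Uᴴ W Q` and `W R = W Q Uᴴ P U Q = P W Uᴴ P U Q`, and
`P U Wᴴ P U Q = P U Q Wᴴ U Q`, we get `f' = S W + W R + iκ f`. The derivative of `Re tr (f Vᴴ)` is `Re tr (f' Vᴴ)`, `tr (gr Vᴴ) = tr (Vᴴ gr)`.
-/

set_option autoImplicit false

namespace Pool.Agent.MP_a98e84_gt.TG

open Matrix
open scoped ComplexOrder

variable {m n : Type*} [Fintype m] [Fintype n] [DecidableEq m] [DecidableEq n]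


private theorem A2_P {x : ℝ → Matrix m n ℂ} {V : Matrix m n ℂ} {t : ℝ} (hb : Ball (x t))
    (hx : HD x V t) :
    HD (fun s => (1 - x s * (x s)ᴴ)⁻¹)
      ((1 - x t * (x t)ᴴ)⁻¹ * (V * (x t)ᴴ + x t * Vᴴ) * (1 - x t * (x t)ᴴ)⁻¹) t := by
  have h1 := HD.inv (HD.sub (HD.const (1 : Matrix m m ℂ) t) (HD.mul hx hx.conj)) hb.det_ne'
  refine h1.congr_deriv ?_
  rw [zero_sub, Matrix.mul_neg, Matrix.neg_mul, neg_neg]

private theorem A2_Q {x : ℝ → Matrix m n ℂ} {V : Matrix m n ℂ} {t : ℝ} (hb : Ball (x t))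
    (hx : HD x V t) :
    HD (fun s => (1 - (x s)ᴴ * x s)⁻¹)
      ((1 - (x t)ᴴ * x t)⁻¹ * (Vᴴ * x t + (x t)ᴴ * V) * (1 - (x t)ᴴ * x t)⁻¹) t := by
  have h1 := HD.inv (HD.sub (HD.const (1 : Matrix n n ℂ) t) (HD.mul hx.conj hx)) hb.det_ne
  refine h1.congr_deriv ?_
  rw [zero_sub, Matrix.mul_neg, Matrix.neg_mul, neg_neg]

private theorem A2_re {ν : Type*} [Fintype ν] (A : Matrix ν ν ℂ) :
    (trace Aᴴ).re = (trace A).re := by
  rw [Matrix.trace_conjTranspose]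
  exact Complex.conj_re _

omit [DecidableEq m] [DecidableEq n] in
private theorem A2_tr (W U V : Matrix m n ℂ) (P : Matrix m m ℂ) (Q : Matrix n n ℂ)
    (hP : Pᴴ = P) (hQ : Qᴴ = Q) :
    (trace ((P * (V * Wᴴ + W * Vᴴ) * P) * U * Q * Uᴴ +
      P * U * (Q * (Vᴴ * W + Wᴴ * V) * Q) * Uᴴ)).re =
      2 * (trace (Vᴴ * (P * U * Q * Uᴴ * P * W + W * (Q * Uᴴ * P * U * Q)))).re := by
  have e1 : trace ((P * (V * Wᴴ + W * Vᴴ) * P) * U * Q * Uᴴ) =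
      trace (V * Wᴴ * (P * U * Q * Uᴴ * P)) + trace (Vᴴ * (P * U * Q * Uᴴ * P * W)) := by
    have a1 : (P * (V * Wᴴ + W * Vᴴ) * P) * U * Q * Uᴴ =
        P * ((V * Wᴴ + W * Vᴴ) * (P * U * Q * Uᴴ)) := by
      simp only [Matrix.mul_assoc]
    have a2 : (V * Wᴴ + W * Vᴴ) * (P * U * Q * Uᴴ) * P =
        V * Wᴴ * (P * U * Q * Uᴴ * P) + W * (Vᴴ * (P * U * Q * Uᴴ * P)) := by
      simp only [Matrix.mul_assoc, Matrix.add_mul]
    rw [a1, Matrix.trace_mul_comm, a2, Matrix.trace_add, Matrix.trace_mul_comm W]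
    simp only [Matrix.mul_assoc]
  have e2 : trace (P * U * (Q * (Vᴴ * W + Wᴴ * V) * Q) * Uᴴ) =
      trace (Vᴴ * (W * (Q * Uᴴ * P * U * Q))) + trace (Wᴴ * V * (Q * Uᴴ * P * U * Q)) := by
    have a1 : P * U * (Q * (Vᴴ * W + Wᴴ * V) * Q) * Uᴴ =
        (P * U * Q) * ((Vᴴ * W + Wᴴ * V) * (Q * Uᴴ)) := by
      simp only [Matrix.mul_assoc]
    have a2 : (Vᴴ * W + Wᴴ * V) * (Q * Uᴴ) * (P * U * Q) =
        Vᴴ * (W * (Q * Uᴴ * P * U * Q)) + Wᴴ * V * (Q * Uᴴ * P * U * Q) := by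
      simp only [Matrix.mul_assoc, Matrix.add_mul]
    rw [a1, Matrix.trace_mul_comm, a2, Matrix.trace_add]
  have e3 : (trace (V * Wᴴ * (P * U * Q * Uᴴ * P))).re =
      (trace (Vᴴ * (P * U * Q * Uᴴ * P * W))).re := by
    rw [← A2_re]
    have a1 : (V * Wᴴ * (P * U * Q * Uᴴ * P))ᴴ = (P * U * Q * Uᴴ * P * W) * Vᴴ := by
      simp only [Matrix.conjTranspose_mul, Matrix.conjTranspose_conjTranspose, hP, hQ,
        Matrix.mul_assoc]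
    rw [a1, Matrix.trace_mul_comm]
  have e4 : (trace (Wᴴ * V * (Q * Uᴴ * P * U * Q))).re =
      (trace (Vᴴ * (W * (Q * Uᴴ * P * U * Q)))).re := by
    rw [← A2_re]
    have a1 : (Wᴴ * V * (Q * Uᴴ * P * U * Q))ᴴ = (Q * Uᴴ * P * U * Q) * (Vᴴ * W) := by
      simp only [Matrix.conjTranspose_mul, Matrix.conjTranspose_conjTranspose, hP, hQ,
        Matrix.mul_assoc]
    rw [a1, Matrix.trace_mul_comm, Matrix.mul_assoc]
  rw [Matrix.trace_add, e1, e2, Matrix.mul_add, Matrix.trace_add, Complex.add_re, Complex.add_re,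
    Complex.add_re, Complex.add_re, e3, e4]
  ring

private theorem A2_gen {x : ℝ → Matrix m n ℂ} {V W : Matrix m n ℂ} {t : ℝ} (hxt : x t = W)
    (hb : Ball W) (hx : HD x V t) (U : Matrix m n ℂ) :
    HasDerivAt (fun s => (hm (x s) U U).re) (2 * (trace (Vᴴ * gr W U)).re) t := by
  subst hxt
  have h2 := HD.trace_re (HD.mul_const (HD.mul (HD.mul_const (A2_P hb hx) U) (A2_Q hb hx)) Uᴴ)
  have h3 : (trace (((((1 - x t * (x t)ᴴ)⁻¹ * (V * (x t)ᴴ + x t * Vᴴ) *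
      (1 - x t * (x t)ᴴ)⁻¹) * U) *
      (1 - (x t)ᴴ * x t)⁻¹ + (1 - x t * (x t)ᴴ)⁻¹ * U *
      ((1 - (x t)ᴴ * x t)⁻¹ * (Vᴴ * x t + (x t)ᴴ * V) * (1 - (x t)ᴴ * x t)⁻¹)) * Uᴴ)).re =
      2 * (trace (Vᴴ * gr (x t) U)).re := by
    rw [Matrix.add_mul, A2_tr (x t) U V _ _ (P_herm (x t)) (Q_herm (x t))]
    rfl
  exact h3 ▸ h2

theorem hasDerivAt_hm {W : Matrix m n ℂ} (hW : Ball W) (U V : Matrix m n ℂ) :
    HasDerivAt (fun ε : ℝ => (hm (W + ε • V) U U).re) (2 * (trace (Vᴴ * gr W U)).re) 0 := by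
  have h0 : W + (0 : ℝ) • V = W := by rw [zero_smul, add_zero]
  have hx : HD (fun ε : ℝ => W + ε • V) V 0 := by
    intro i j
    have h1 : HasDerivAt (fun ε : ℝ => ε • V i j) ((1 : ℝ) • V i j) 0 :=
      (hasDerivAt_id (0 : ℝ)).smul_const (V i j)
    rw [one_smul] at h1
    exact h1.const_add (W i j)
  exact A2_gen (x := fun ε : ℝ => W + ε • V) h0 hW hx U

/-- the derivative of `P U Q` along a curve -/
theorem HD_puq {x : ℝ → Matrix m n ℂ} {U : ℝ → Matrix m n ℂ} {t : ℝ} {U' : Matrix m n ℂ} (hb : Ball (x t)) (hx : HD x (U t) t)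
    (hU : HD U U' t) :
    HD (fun s => (1 - x s * (x s)ᴴ)⁻¹ * U s * (1 - (x s)ᴴ * x s)⁻¹)
      (gr (x t) (U t) + (1 - x t * (x t)ᴴ)⁻¹ * (U' + (2 : ℂ) • (U t * (1 - (x t)ᴴ * x t)⁻¹ * (x t)ᴴ * U t)) *
        (1 - (x t)ᴴ * x t)⁻¹) t := by
  refine (HD.mul (HD.mul (A2_P hb hx) hU) (A2_Q hb hx)).congr_deriv ?_
  have hp := P_mul hb
  have hq := Q_mul hb
  unfold gr
  generalize (1 - x t * (x t)ᴴ)⁻¹ = P at hp hq ⊢
  generalize (1 - (x t)ᴴ * x t)⁻¹ = Q at hp hq ⊢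
  generalize x t = W at hp hq ⊢
  generalize U t = A
  have e1 : P * (A * Wᴴ) * P * A * Q = P * A * Q * Wᴴ * A * Q := by
    calc P * (A * Wᴴ) * P * A * Q = P * A * (Wᴴ * P) * A * Q := by simp only [Matrix.mul_assoc]
      _ = _ := by
        rw [← hq]
        simp only [Matrix.mul_assoc]
  have e2 : P * (W * Aᴴ) * P * A * Q = W * (Q * Aᴴ * P * A * Q) := by
    calc P * (W * Aᴴ) * P * A * Q = (P * W) * (Aᴴ * P * A * Q) := by simp only [Matrix.mul_assoc]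
      _ = _ := by
        rw [hp]
        simp only [Matrix.mul_assoc]
  have e3 : P * A * (Q * (Aᴴ * W) * Q) = P * A * Q * Aᴴ * P * W := by
    calc P * A * (Q * (Aᴴ * W) * Q) = P * A * Q * Aᴴ * (W * Q) := by simp only [Matrix.mul_assoc]
      _ = _ := by
        rw [← hp]
        simp only [Matrix.mul_assoc]
  have e4 : P * A * (Q * (Wᴴ * A) * Q) = P * A * Q * Wᴴ * A * Q := by
    simp only [Matrix.mul_assoc]
  have e5 : P * ((2 : ℂ) • (A * Q * Wᴴ * A)) * Q = (2 : ℂ) • (P * A * Q * Wᴴ * A * Q) := by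
    rw [Matrix.mul_smul, Matrix.smul_mul]
    simp only [Matrix.mul_assoc]
  calc (P * (A * Wᴴ + W * Aᴴ) * P * A + P * U') * Q + P * A * (Q * (Aᴴ * W + Wᴴ * A) * Q)
      = P * (A * Wᴴ) * P * A * Q + P * (W * Aᴴ) * P * A * Q + P * U' * Q +
        (P * A * (Q * (Aᴴ * W) * Q) + P * A * (Q * (Wᴴ * A) * Q)) := by
        simp only [Matrix.mul_add, Matrix.add_mul]
    _ = P * A * Q * Aᴴ * P * W + W * (Q * Aᴴ * P * A * Q) +
        (P * U' * Q + P * ((2 : ℂ) • (A * Q * Wᴴ * A)) * Q) := by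
        rw [e1, e2, e3, e4, e5, two_smul]
        abel
    _ = _ := by
        rw [Matrix.mul_add, Matrix.add_mul]

theorem el_of_ode {κ : ℝ} {x x' : ℝ → Matrix m n ℂ} (h : Ode κ x x') (t : ℝ) (V : Matrix m n ℂ) :
    HasDerivAt (fun r => (hm (x r) (x' r) V).re)
      ((trace (Vᴴ * gr (x t) (x' t))).re + κ * (hm (x t) (Complex.I • x' t) V).re) t := by
  have h1 := HD.trace_re (HD.mul_const (HD_puq (h.mem t) (h.vel t) (h.acc t)) Vᴴ)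
  have h2 : (((κ : ℂ) * Complex.I) • x' t -
      (2 : ℂ) • (x' t * (1 - (x t)ᴴ * x t)⁻¹ * (x t)ᴴ * x' t)) +
      (2 : ℂ) • (x' t * (1 - (x t)ᴴ * x t)⁻¹ * (x t)ᴴ * x' t) =
      (κ : ℂ) • (Complex.I • x' t) := by
    rw [sub_add_cancel, mul_smul]
  rw [h2, Matrix.add_mul, Matrix.trace_add, Matrix.trace_mul_comm (gr (x t) (x' t)),
    Complex.add_re, Matrix.mul_smul, Matrix.smul_mul, Matrix.smul_mul, Matrix.trace_smul,
    smul_eq_mul, Complex.re_ofReal_mul] at h1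
  exact h1

end Pool.Agent.MP_a98e84_gt.TG
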