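import Pool.Agent.Lib.MP_a98e84_gt.Mg.G004

/-!
# TASK TG D5: the normal form of an element of `Γ`

Let `W₀` be a minimum of `FF V γ` (`exists_min`), `T i = tv (W₀ i)`, `G' i = (T i)⁻¹ * G i * T i` (`IsU`). `maps`: `mob_tv_mem`, `ball_mob`. For `W ∈ dom V` the point `mob (G' i) (W i) = mob (T i)⁻¹ (mob (G i) (mob (T i) (W i)))` is in `V i`
(`mob_tv_inv_mem`; `mob (G i) (..)` is the coordinate of `γ • ..`). The same for `(G' i)⁻¹ = (T i)⁻¹ (G i)⁻¹ T i`, because `mob (G i)⁻¹ (W i) = (γ⁻¹ • W) i` (`mob_inv_mob`). Fix `i` and `Y ∈ V i`, `Ball Y`; the point `W' = Function.update 0 i Y` is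
in `dom V`. `FF V γ (T • W')`: `dd (mob (T j) (W' j)) (mob (G j) (mob (T j) (W' j))) = dd (W' j) (mob (G' j) (W' j))` (`dd_mob`, `mob_mob_inv`); the same for `0` in place of `W'` (`mob (T j) 0 = W₀ j`). All terms with `j ≠ i` agree, so the minimum property gives
`dd 0 (mob (G' i) 0) ≤ dd Y (mob (G' i) Y)`. Let `B i = mob (G' i) 0`. `crit`: `mob (G' i)⁻¹ 0 = - B i`. `k = (tv (B i))⁻¹ * G' i` satisfies `mob k 0 = 0` (`mob_tv_zero`, `mob_inv_mob`), so `stab_zero`: `k = fromBlocks k1 0 0 k2`. Then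
`mob (G' i)⁻¹ 0 = mob k⁻¹ (mob (tv (B i))⁻¹ 0) = k1ᴴ * (- B i) * k2` (`mob_tv_inv`, `mob_diag` for `k⁻¹ = fromBlocks k1ᴴ 0 0 k2ᴴ`), so `k1 * B i = B i * k2`. `ne`: if all `B i = 0` then `mob (G i) (W₀ i) = W₀ i`, `γ • W₀ = W₀`, `γ = 1`.
-/

set_option autoImplicit false

namespace Pool.Agent.MP_a98e84_gt.TG

open Matrix
open scoped ComplexOrder

variable {ι : Type} [Fintype ι] {p q : ι → ℕ}


section aux

variable {m n : Type*} [Fintype m] [Fintype n] [DecidableEq m] [DecidableEq n]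

private theorem D5_conj {G T : Matrix (m ⊕ n) (m ⊕ n) ℂ} (hT : IsU T) (hG : IsU G) :
    IsU (T⁻¹ * G * T) :=
  (hT.inv.mul hG).mul hT

private theorem D5_conj_inv {G T : Matrix (m ⊕ n) (m ⊕ n) ℂ} (hT : IsU T) :
    (T⁻¹ * G * T)⁻¹ = T⁻¹ * G⁻¹ * T := by
  rw [Matrix.mul_inv_rev, Matrix.mul_inv_rev, Matrix.nonsing_inv_nonsing_inv _ hT.isUnit_det,
    Matrix.mul_assoc]

private theorem D5_mob {G T : Matrix (m ⊕ n) (m ⊕ n) ℂ} (hT : IsU T) (hG : IsU G)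
    {W : Matrix m n ℂ} (hW : Ball W) : mob (T⁻¹ * G * T) W = mob T⁻¹ (mob G (mob T W)) := by
  rw [mob_mul (hT.inv.mul hG) hT hW, mob_mul hT.inv hG (ball_mob hT hW)]

private theorem D5_mob' {G T : Matrix (m ⊕ n) (m ⊕ n) ℂ} (hT : IsU T) (hG : IsU G)
    {W : Matrix m n ℂ} (hW : Ball W) : mob T (mob (T⁻¹ * G * T) W) = mob G (mob T W) := by
  rw [D5_mob hT hG hW, mob_mob_inv hT (ball_mob hG (ball_mob hT hW))]

private theorem D5_dd {G T : Matrix (m ⊕ n) (m ⊕ n) ℂ} (hT : IsU T) (hG : IsU G)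
    {W : Matrix m n ℂ} (hW : Ball W) :
    dd (mob T W) (mob G (mob T W)) = dd W (mob (T⁻¹ * G * T) W) := by
  rw [← D5_mob' hT hG hW, dd_mob hT hW (ball_mob (D5_conj hT hG) hW)]

private theorem D5_block {G' : Matrix (m ⊕ n) (m ⊕ n) ℂ} {C : Matrix m n ℂ} (hG : IsU G') (hC : mob G' 0 = C)
    (hcr : mob G'⁻¹ 0 = -C) : ∃ (k1 : Matrix m m ℂ) (k2 : Matrix n n ℂ), k1ᴴ * k1 = 1 ∧
      k2ᴴ * k2 = 1 ∧ k1 * C = C * k2 ∧ G' = tv C * fromBlocks k1 0 0 k2 := by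
  have hCb : Ball C := by
    rw [← hC]
    exact ball_mob hG ball_zero
  have ht := isU_tv hCb
  have hk : IsU ((tv C)⁻¹ * G') := ht.inv.mul hG
  have h0 : mob ((tv C)⁻¹ * G') 0 = 0 := by
    rw [mob_mul ht.inv hG ball_zero, hC]
    have h1 := mob_inv_mob ht (ball_zero (m := m) (n := n))
    rwa [mob_tv_zero hCb] at h1
  obtain ⟨k1, k2, hkk, h1, h2⟩ := stab_zero hk h0
  have hG' : G' = tv C * fromBlocks k1 0 0 k2 := by
    rw [← hkk, Matrix.mul_nonsing_inv_cancel_left _ _ ht.isUnit_det]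
  have hkinv : (fromBlocks k1 0 0 k2)⁻¹ = fromBlocks k1ᴴ 0 0 k2ᴴ := by
    refine Matrix.inv_eq_left_inv ?_
    rw [Matrix.fromBlocks_multiply, h1, h2]
    simp
  have h2' : (k2ᴴ)ᴴ * k2ᴴ = 1 := by
    rw [Matrix.conjTranspose_conjTranspose]
    exact mul_eq_one_comm.1 h2
  have h1' : k1 * k1ᴴ = 1 := mul_eq_one_comm.1 h1
  have hkU : IsU (fromBlocks k1 0 0 k2) := by rw [← hkk]; exact hk
  have h3 : mob G'⁻¹ 0 = -(k1ᴴ * C * k2) := by
    have h4 : mob (tv C)⁻¹ (0 : Matrix m n ℂ) = -C := by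
      rw [mob_tv_inv hCb ball_zero, neg_zero, mob_tv_zero hCb]
    rw [hG', Matrix.mul_inv_rev, mob_mul hkU.inv ht.inv ball_zero, h4, hkinv, mob_diag h2',
      Matrix.conjTranspose_conjTranspose, Matrix.mul_neg, Matrix.neg_mul]
  rw [hcr] at h3
  have h5 : C = k1ᴴ * C * k2 := neg_injective h3
  refine ⟨k1, k2, h1, h2, ?_, hG'⟩
  calc k1 * C = k1 * (k1ᴴ * C * k2) := by rw [← h5]
    _ = (k1 * k1ᴴ) * C * k2 := by simp only [Matrix.mul_assoc]
    _ = C * k2 := by rw [h1', Matrix.one_mul]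

end aux

/-- the normal form of the lift `G` of `γ` -/
structure NF (V : ∀ i, Submodule ℂ (Matrix (Fin (p i)) (Fin (q i)) ℂ))
    (G T : ∀ i, Matrix (Fin (p i) ⊕ Fin (q i)) (Fin (p i) ⊕ Fin (q i)) ℂ) (B : EE p q)
    (k1 : ∀ i, Matrix (Fin (p i)) (Fin (p i)) ℂ) (k2 : ∀ i, Matrix (Fin (q i)) (Fin (q i)) ℂ) : Prop where
  isU : ∀ i, IsU (T i)
  maps : ∀ W ∈ dom V, (fun i => mob (T i) (W i)) ∈ dom V
  mem : B ∈ dom V
  u1 : ∀ i, (k1 i)ᴴ * k1 i = 1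
  u2 : ∀ i, (k2 i)ᴴ * k2 i = 1
  comm : ∀ i, k1 i * B i = B i * k2 i
  conj : ∀ i, (T i)⁻¹ * G i * T i = tv (B i) * fromBlocks (k1 i) 0 0 (k2 i)
  ne : ∃ i, B i ≠ 0

theorem normal_form (V : ∀ i, Submodule ℂ (Matrix (Fin (p i)) (Fin (q i)) ℂ)) (hV : ∀ i, JStar (V i)) {Γ : Type} [Group Γ]
    [MulAction Γ (dom V)] (hact : ∀ γ : Γ, ∃ G, Lifts V γ G) (hfree : ∀ (γ : Γ) (W : dom V), γ • W = W → γ = 1)
    [ProperlyDiscontinuousSMul Γ (dom V)] [CompactSpace (Quotient (MulAction.orbitRel Γ (dom V)))] {γ : Γ} (hγ : γ ≠ 1)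
    {G : ∀ i, Matrix (Fin (p i) ⊕ Fin (q i)) (Fin (p i) ⊕ Fin (q i)) ℂ} (hG : Lifts V γ G) :
    ∃ T B k1 k2, NF V G T B k1 k2 := by
  classical
  obtain ⟨W₀, hmin⟩ := exists_min V hact γ
  have hw : ∀ i, (W₀ : EE p q) i ∈ V i ∧ Ball ((W₀ : EE p q) i) := W₀.2
  have hT : ∀ i, IsU (tv ((W₀ : EE p q) i)) := fun i => isU_tv (hw i).2
  have hmaps : ∀ W ∈ dom V, (fun i => mob (tv ((W₀ : EE p q) i)) (W i)) ∈ dom V := fun W hW i =>
    ⟨mob_tv_mem (hV i) (hw i).1 (hw i).2 (hW i).1 (hW i).2, ball_mob (hT i) (hW i).2⟩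
  have hinv : ∀ W ∈ dom V, (fun i => mob (tv ((W₀ : EE p q) i))⁻¹ (W i)) ∈ dom V := fun W hW i =>
    ⟨mob_tv_inv_mem (hV i) (hw i).1 (hw i).2 (hW i).1 (hW i).2, ball_mob (hT i).inv (hW i).2⟩
  have hGm : ∀ W ∈ dom V, (fun i => mob (G i) (W i)) ∈ dom V := by
    intro W hW
    have h1 : (fun i => mob (G i) (W i)) = ((γ • (⟨W, hW⟩ : dom V) : dom V) : EE p q) := by
      funext i
      exact (hG.2 ⟨W, hW⟩ i).symm
    rw [h1]
    exact (γ • (⟨W, hW⟩ : dom V) : dom V).2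
  have hGim : ∀ W ∈ dom V, (fun i => mob (G i)⁻¹ (W i)) ∈ dom V := by
    intro W hW
    have h1 : (fun i => mob (G i)⁻¹ (W i)) = ((γ⁻¹ • (⟨W, hW⟩ : dom V) : dom V) : EE p q) := by
      funext i
      have h2 := hG.2 (γ⁻¹ • (⟨W, hW⟩ : dom V)) i
      rw [smul_inv_smul] at h2
      have h3 : W i = mob (G i) (((γ⁻¹ • (⟨W, hW⟩ : dom V) : dom V) : EE p q) i) := h2
      rw [h3, mob_inv_mob (hG.1 i) ((γ⁻¹ • (⟨W, hW⟩ : dom V) : dom V).2 i).2]
    rw [h1]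
    exact (γ⁻¹ • (⟨W, hW⟩ : dom V) : dom V).2
  have hG' : ∀ i, IsU ((tv ((W₀ : EE p q) i))⁻¹ * G i * tv ((W₀ : EE p q) i)) := fun i =>
    D5_conj (hT i) (hG.1 i)
  have hzero : (0 : EE p q) ∈ dom V := fun i => ⟨(V i).zero_mem, ball_zero⟩
  have hG'm : ∀ W ∈ dom V,
      (fun i => mob ((tv ((W₀ : EE p q) i))⁻¹ * G i * tv ((W₀ : EE p q) i)) (W i)) ∈ dom V := by
    intro W hW
    have h1 := hinv _ (hGm _ (hmaps W hW))
    have h2 : (fun i => mob ((tv ((W₀ : EE p q) i))⁻¹ * G i * tv ((W₀ : EE p q) i)) (W i)) =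
        fun i => mob (tv ((W₀ : EE p q) i))⁻¹ (mob (G i) (mob (tv ((W₀ : EE p q) i)) (W i))) := by
      funext i
      exact D5_mob (hT i) (hG.1 i) (hW i).2
    rw [h2]
    exact h1
  have hG'im : ∀ W ∈ dom V,
      (fun i => mob ((tv ((W₀ : EE p q) i))⁻¹ * G i * tv ((W₀ : EE p q) i))⁻¹ (W i)) ∈ dom V := by
    intro W hW
    have h1 := hinv _ (hGim _ (hmaps W hW))
    have h2 : (fun i => mob ((tv ((W₀ : EE p q) i))⁻¹ * G i * tv ((W₀ : EE p q) i))⁻¹ (W i)) =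
        fun i => mob (tv ((W₀ : EE p q) i))⁻¹
          (mob (G i)⁻¹ (mob (tv ((W₀ : EE p q) i)) (W i))) := by
      funext i
      rw [D5_conj_inv (hT i)]
      exact D5_mob (hT i) (hG.1 i).inv (hW i).2
    rw [h2]
    exact h1
  have hdd0 : ∀ i, dd ((W₀ : EE p q) i) (mob (G i) ((W₀ : EE p q) i)) =
      dd 0 (mob ((tv ((W₀ : EE p q) i))⁻¹ * G i * tv ((W₀ : EE p q) i)) 0) := by
    intro i
    have h1 := D5_dd (hT i) (hG.1 i) (ball_zero (m := Fin (p i)) (n := Fin (q i)))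
    rwa [mob_tv_zero (hw i).2] at h1
  have hcr : ∀ i, mob ((tv ((W₀ : EE p q) i))⁻¹ * G i * tv ((W₀ : EE p q) i))⁻¹ 0 =
      - mob ((tv ((W₀ : EE p q) i))⁻¹ * G i * tv ((W₀ : EE p q) i)) 0 := by
    intro i
    refine crit (hG' i) (hG'm 0 hzero i).1 (hG'im 0 hzero i).1 fun Y hY hYb => ?_
    have hW' : (Function.update (0 : EE p q) i Y) ∈ dom V := by
      intro j
      by_cases hj : j = i
      · subst hj
        rw [Function.update_self]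
        exact ⟨hY, hYb⟩
      · rw [Function.update_of_ne hj]
        exact hzero j
    have h1 := hmin ⟨_, hmaps _ hW'⟩
    unfold FF at h1
    have h2 : ∑ j, dd ((W₀ : EE p q) j) (((γ • W₀ : dom V) : EE p q) j) =
        ∑ j, dd 0 (mob ((tv ((W₀ : EE p q) j))⁻¹ * G j * tv ((W₀ : EE p q) j)) 0) := by
      refine Finset.sum_congr rfl fun j _ => ?_
      rw [hG.2, hdd0]
    have h3 : ∑ j, dd (((⟨_, hmaps _ hW'⟩ : dom V) : EE p q) j)
        (((γ • (⟨_, hmaps _ hW'⟩ : dom V) : dom V) : EE p q) j) =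
        ∑ j, dd (Function.update (0 : EE p q) i Y j)
          (mob ((tv ((W₀ : EE p q) j))⁻¹ * G j * tv ((W₀ : EE p q) j))
            (Function.update (0 : EE p q) i Y j)) := by
      refine Finset.sum_congr rfl fun j _ => ?_
      rw [hG.2]
      exact D5_dd (hT j) (hG.1 j) (hW' j).2
    rw [h2, h3, ← Finset.add_sum_erase _ _ (Finset.mem_univ i),
      ← Finset.add_sum_erase (a := i) Finset.univ (fun j => dd (Function.update (0 : EE p q) i Y j)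
          (mob ((tv ((W₀ : EE p q) j))⁻¹ * G j * tv ((W₀ : EE p q) j))
            (Function.update (0 : EE p q) i Y j))) (Finset.mem_univ i)] at h1
    have h4 : ∑ j ∈ Finset.univ.erase i, dd (Function.update (0 : EE p q) i Y j)
          (mob ((tv ((W₀ : EE p q) j))⁻¹ * G j * tv ((W₀ : EE p q) j))
            (Function.update (0 : EE p q) i Y j)) =
        ∑ j ∈ Finset.univ.erase i,
          dd 0 (mob ((tv ((W₀ : EE p q) j))⁻¹ * G j * tv ((W₀ : EE p q) j)) 0) := by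
      refine Finset.sum_congr rfl fun j hj => ?_
      rw [Function.update_of_ne (Finset.ne_of_mem_erase hj)]
      rfl
    rw [h4, Function.update_self] at h1
    linarith
  choose k1 k2 hk1 hk2 hkc hkt using fun i => D5_block (hG' i) rfl (hcr i)
  refine ⟨fun i => tv ((W₀ : EE p q) i),
    fun i => mob ((tv ((W₀ : EE p q) i))⁻¹ * G i * tv ((W₀ : EE p q) i)) 0, k1, k2,
    { isU := hT
      maps := hmaps
      mem := hG'm 0 hzero
      u1 := hk1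
      u2 := hk2
      comm := hkc
      conj := hkt
      ne := ?_ }⟩
  by_contra hcon
  push Not at hcon
  refine hγ (hfree γ W₀ (Subtype.ext (funext fun i => ?_)))
  have h1 := D5_mob' (hT i) (hG.1 i) (ball_zero (m := Fin (p i)) (n := Fin (q i)))
  rw [hcon i, mob_tv_zero (hw i).2] at h1
  rw [hG.2]
  exact h1.symm

end Pool.Agent.MP_a98e84_gt.TG
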