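import Mathlib

/-!
# Definitions: twisted geodesic flows on compact quotients of classical bounded symmetric domains

All matrices are complex. `W` in the open unit ball means that `1 - Wᴴ * W` is positive definite.
-/

set_option autoImplicit false

namespace Pool.Agent.MP_a98e84_gt.TG

open Matrix
open scoped ComplexOrder

section one

variable {m n : Type*} [Fintype m] [Fintype n] [DecidableEq m] [DecidableEq n]

/-- `F'` is the derivative at `t` of the curve of matrices `F` (entry by entry). -/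
def HD {m n : Type*} (F : ℝ → Matrix m n ℂ) (F' : Matrix m n ℂ) (t : ℝ) : Prop :=
  ∀ i j, HasDerivAt (fun s => F s i j) (F' i j) t

/-- The open unit ball. -/
def Ball {m n : Type*} [Fintype m] [DecidableEq n] (W : Matrix m n ℂ) : Prop := (1 - Wᴴ * W).PosDef

/-- The invariant Hermitian form `tr ((1 - W Wᴴ)⁻¹ U (1 - Wᴴ W)⁻¹ Vᴴ)` of the unit ball. -/
noncomputable def hm (W U V : Matrix m n ℂ) : ℂ :=
  trace ((1 - W * Wᴴ)⁻¹ * U * (1 - Wᴴ * W)⁻¹ * Vᴴ)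

/-- A space of matrices which is closed under `A ↦ A Aᴴ A` (a `J*`-algebra). -/
structure JStar {m n : Type*} [Fintype m] [Fintype n] (V : Submodule ℂ (Matrix m n ℂ)) : Prop where
  cube : ∀ A ∈ V, A * Aᴴ * A ∈ V

/-- The matrix `diag (1, -1)`. -/
def JJ (m n : Type*) [DecidableEq m] [DecidableEq n] : Matrix (m ⊕ n) (m ⊕ n) ℂ := fromBlocks 1 0 0 (-1)

/-- `G` belongs to the group `U(m,n)`. -/
def IsU (G : Matrix (m ⊕ n) (m ⊕ n) ℂ) : Prop := Gᴴ * JJ m n * G = JJ m n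

/-- The fractional linear transformation `W ↦ (A W + B) (C W + D)⁻¹`. -/
noncomputable def mob (G : Matrix (m ⊕ n) (m ⊕ n) ℂ) (W : Matrix m n ℂ) : Matrix m n ℂ :=
  (G.toBlocks₁₁ * W + G.toBlocks₁₂) * (G.toBlocks₂₁ * W + G.toBlocks₂₂)⁻¹

/-- The maximal rank of an element of `V`. -/
noncomputable def maxRank {m n : Type*} [Fintype n] (V : Submodule ℂ (Matrix m n ℂ)) : ℕ :=
  sSup {r | ∃ A ∈ V, A.rank = r}

/-- The second order equation `W'' = i κ W' - 2 W' (1 - Wᴴ W)⁻¹ Wᴴ W'`. -/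
structure Ode (κ : ℝ) (x x' : ℝ → Matrix m n ℂ) : Prop where
  mem : ∀ t, Ball (x t)
  vel : ∀ t, HD x (x' t) t
  acc : ∀ t, HD x' (((κ : ℂ) * Complex.I) • x' t -
    (2 : ℂ) • (x' t * (1 - (x t)ᴴ * x t)⁻¹ * (x t)ᴴ * x' t)) t

/-- The same equation in the unit disc. -/
structure DiscOde (κ : ℝ) (w w' : ℝ → ℂ) : Prop where
  mem : ∀ t, ‖w t‖ < 1
  vel : ∀ t, HasDerivAt w (w' t) t
  acc : ∀ t, HasDerivAt w' ((κ : ℂ) * Complex.I * w' t -
    2 * (starRingEnd ℂ) (w t) * w' t ^ 2 / ((1 - ‖w t‖ ^ 2 : ℝ) : ℂ)) t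

/-- The gradient term of the Euler-Lagrange equation. -/
noncomputable def gr (W U : Matrix m n ℂ) : Matrix m n ℂ :=
  (1 - W * Wᴴ)⁻¹ * U * (1 - Wᴴ * W)⁻¹ * Uᴴ * (1 - W * Wᴴ)⁻¹ * W +
    W * ((1 - Wᴴ * W)⁻¹ * Uᴴ * (1 - W * Wᴴ)⁻¹ * U * (1 - Wᴴ * W)⁻¹)

/-- The derivative of `mob G` at `W` in the direction `U`. -/
noncomputable def dmob (G : Matrix (m ⊕ n) (m ⊕ n) ℂ) (W U : Matrix m n ℂ) : Matrix m n ℂ :=
  (G.toBlocks₁₁ᴴ + W * G.toBlocks₁₂ᴴ)⁻¹ * U * (G.toBlocks₂₁ * W + G.toBlocks₂₂)⁻¹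

/-- The two point function `|det (1 - Wᴴ Z)|² / (det (1 - Wᴴ W) det (1 - Zᴴ Z))`. -/
noncomputable def dd (W Z : Matrix m n ℂ) : ℝ :=
  ‖(1 - Wᴴ * Z).det‖ ^ 2 / (‖(1 - Wᴴ * W).det‖ * ‖(1 - Zᴴ * Z).det‖)

/-- The space of the vectors `v` with `G⁻ᴺ v → 0`. -/
def unst {ν : Type*} [Fintype ν] [DecidableEq ν] (G : Matrix ν ν ℂ) : Submodule ℂ (ν → ℂ) where
  carrier := {v | Filter.Tendsto (fun N : ℕ => (G⁻¹) ^ N *ᵥ v) Filter.atTop (nhds 0)}
  add_mem' := by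
    intro v w hv hw
    have h := hv.add hw
    simp only [add_zero] at h
    refine h.congr fun N => ?_
    rw [mulVec_add]
  zero_mem' := by
    simp only [Set.mem_setOf_eq, mulVec_zero]
    exact tendsto_const_nhds
  smul_mem' := by
    intro c v hv
    have h := hv.const_smul c
    simp only [smul_zero] at h
    refine h.congr fun N => ?_
    rw [mulVec_smul]

/-- The number of eigenvalues of modulus larger than one of an invertible matrix `G`: the dimension of the space of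
the vectors `v` with `G⁻ᴺ v → 0`. -/
noncomputable def hyp {ν : Type*} [Fintype ν] [DecidableEq ν] (G : Matrix ν ν ℂ) : ℕ :=
  Module.finrank ℂ (unst G)

/-- `∑ j, w j • E j`. -/
def pl {m n : Type*} {k : ℕ} (E : Fin k → Matrix m n ℂ) (w : Fin k → ℂ) : Matrix m n ℂ := ∑ j, w j • E j

/-- The element `(iκ/2, μ; μᴴ, -iκ/2)` of the Lie algebra of `U(m,n)`. -/
noncomputable def xi (κ : ℝ) (μ : Matrix m n ℂ) : Matrix (m ⊕ n) (m ⊕ n) ℂ :=
  fromBlocks ((((κ / 2 : ℝ) : ℂ) * Complex.I) • (1 : Matrix m m ℂ)) μ μᴴ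
    (-((((κ / 2 : ℝ) : ℂ) * Complex.I) • (1 : Matrix n n ℂ)))

/-- `E` is the one-parameter group with generator `ξ` (with the properties which we need). -/
structure IsFlow {ν : Type*} [Fintype ν] [DecidableEq ν] (ξ : Matrix ν ν ℂ) (E : ℝ → Matrix ν ν ℂ) : Prop where
  zero : E 0 = 1
  add : ∀ s t, E (s + t) = E s * E t
  der : ∀ t, HD E (E t * ξ) t
  comm : ∀ k : Matrix ν ν ℂ, k * ξ = ξ * k → ∀ t, k * E t = E t * k
  eig : ∀ (v : ν → ℂ) (c : ℂ), ξ *ᵥ v = c • v → ∀ t : ℝ, E t *ᵥ v = Complex.exp ((t : ℂ) * c) • v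
  nil : ∀ v : ν → ℂ, ξ *ᵥ (ξ *ᵥ v) = 0 → ∀ t : ℝ, E t *ᵥ v = v + (t : ℂ) • (ξ *ᵥ v)

/-- Pairwise orthogonal partial isometries. -/
structure Trip {k : ℕ} (E : Fin k → Matrix m n ℂ) : Prop where
  trip : ∀ j, E j * (E j)ᴴ * E j = E j
  orthL : ∀ j l, j ≠ l → (E j)ᴴ * E l = 0
  orthR : ∀ j l, j ≠ l → E j * (E l)ᴴ = 0

end one

section prod

variable {ι : Type} [Fintype ι] {p q : ι → ℕ}

/-- Families of matrices. -/
abbrev EE (p q : ι → ℕ) : Type := ∀ i, Matrix (Fin (p i)) (Fin (q i)) ℂ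

/-- The product of the open unit balls of the spaces `V i`. -/
def dom (V : ∀ i, Submodule ℂ (Matrix (Fin (p i)) (Fin (q i)) ℂ)) : Set (EE p q) :=
  {W | ∀ i, W i ∈ V i ∧ Ball (W i)}

/-- `x` is a curve in `X` with velocity `x'` which satisfies the Euler-Lagrange equations
`d/dt g_x(x', v) = (1/2) D_v g_x (x', x') + s_x (x', v)`, `v ∈ Y`, of a charged particle for the metric `g` and the
two-form `s` on the open subset `X` of the space `Y`: it is an orbit of the twisted geodesic flow. -/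
structure Sol (X Y : Set (EE p q)) (g s : EE p q → EE p q → EE p q → ℝ) (x x' : ℝ → EE p q) : Prop where
  mem : ∀ t, x t ∈ X
  vel : ∀ t i j k, HasDerivAt (fun r => x r i j k) (x' t i j k) t
  el : ∀ t, ∀ v ∈ Y, HasDerivAt (fun r => g (x r) (x' r) v)
    (deriv (fun h : ℝ => g (x t + h • v) (x' t) (x' t)) 0 / 2 + s (x t) (x' t) v) t

/-- The metric `∑ i, a i * Re hm`. -/
noncomputable def met (a : ι → ℝ) (W U V : EE p q) : ℝ := ∑ i, a i * (hm (W i) (U i) (V i)).re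

/-- The two-form `∑ i, b i * ω i`, where `ω i` is the Kaehler form `(U, V) ↦ Re hm (i U, V)`. -/
noncomputable def frm (b : ι → ℝ) (W U V : EE p q) : ℝ := ∑ i, b i * (hm (W i) (Complex.I • U i) (V i)).re

/-- The level `∑ i, R i * b i ^ 2 / (8 * a i)`, `R i` the maximal rank of an element of `V i`. -/
noncomputable def cs (V : ∀ i, Submodule ℂ (Matrix (Fin (p i)) (Fin (q i)) ℂ)) (a b : ι → ℝ) : ℝ :=
  ∑ i, (maxRank (V i) : ℝ) * b i ^ 2 / (8 * a i)

/-- The matrices `G i` induce the transformation `γ` of the domain. -/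
def Lifts (V : ∀ i, Submodule ℂ (Matrix (Fin (p i)) (Fin (q i)) ℂ)) {Γ : Type} [Group Γ] [MulAction Γ (dom V)]
    (γ : Γ) (G : ∀ i, Matrix (Fin (p i) ⊕ Fin (q i)) (Fin (p i) ⊕ Fin (q i)) ℂ) : Prop :=
  (∀ i, IsU (G i)) ∧ ∀ (W : dom V) (i : ι), ((γ • W : dom V) : EE p q) i = mob (G i) ((W : EE p q) i)

/-- The energy level `c` of the twisted geodesic flow on `Γ \ X` carries a periodic orbit: some solution in `X` of
energy `c` has a periodic projection to `Γ \ X`. -/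
def HasPer (V : ∀ i, Submodule ℂ (Matrix (Fin (p i)) (Fin (q i)) ℂ)) (a b : ι → ℝ) (Γ : Type) [Group Γ]
    [MulAction Γ (dom V)] (c : ℝ) : Prop :=
  ∃ (x x' : ℝ → EE p q) (T : ℝ), Sol (dom V) {v | ∀ i, v i ∈ V i} (met a) (frm b) x x' ∧
    (∀ t, met a (x t) (x' t) (x' t) / 2 = c) ∧ 0 < T ∧
    ∀ t (h : x t ∈ dom V) (h' : x (t + T) ∈ dom V), ∃ γ : Γ, γ • (⟨x t, h⟩ : dom V) = ⟨x (t + T), h'⟩

end prod

end Pool.Agent.MP_a98e84_gt.TG
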