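import Pool.Agent.Lib.MP_a98e84_gt.Mg.G002
import Pool.Agent.Lib.MP_a98e84_gt.Mg.G001
import Pool.Agent.Lib.MP_a98e84_gt.TG.B5

/-!
# TASK TG E0: the rank is at most the number of eigenvalues of modulus larger than one

`trip_decomp` for `V = ⊤`: `B = pl E β`, `0 < β j`, `β j < 1` (`Trip.lt_one`), `k1 E j = E j k2`. Let `c j = (1 - β j ²)^(-1/2)`, `μ j = c j (1 + β j) > 1`. For a vector `u` put `φ j u = Sum.elim (E j *ᵥ u) (((E j)ᴴ * E j) *ᵥ u)` in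
`ℂ^(m ⊕ n)`. With `tva_pl`, `tvd_pl` (and its adjoint: `tvd B * (E j)ᴴ = c j (E j)ᴴ`): `tv B *ᵥ φ j u = μ j • φ j u`. (`tva B *ᵥ (E j u) + tva B * B *ᵥ ((E j)ᴴ E j u) = c j E j u + c j β j E j u`.) `K = fromBlocks k1 0 0 k2` commutes with `tv B` (`tv_comm`) and
`K *ᵥ φ j u = φ j (k2 *ᵥ u)` (`k2` commutes with `(E j)ᴴ E j`). So `(tv B * K)⁻¹ ^ N *ᵥ φ j u = μ j ^ (-N) • φ j (k2⁻¹ ^ N *ᵥ u)`, which tends to `0` because `|k2⁻¹ ^ N u|` is constant. Let `e = pl E 1 = ∑ E j`, `Φ u = ∑ j, φ j u = Sum.elim (e u) (eᴴ e u)`.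
So `Φ u ∈ unst (tv B * K)` and `T *ᵥ Φ u ∈ unst G` (`G⁻¹ = T (tv B * K)⁻¹ T⁻¹`; `T` is invertible). The linear map `u ↦ T *ᵥ Φ u` has rank `≥ rank (eᴴ e) = rank e = rank B` (`Trip.rank_pl`, `Matrix.rank_conjTranspose_mul_self`), so
`rank B ≤ finrank (unst G)` (`LinearMap.finrank_range_le` ..., `Submodule.finrank_mono`).
-/

set_option autoImplicit false

namespace Pool.Agent.MP_a98e84_gt.TG

open Matrix
open scoped ComplexOrder

variable {m n : Type*} [Fintype m] [Fintype n] [DecidableEq m] [DecidableEq n]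


omit [Fintype m] [Fintype n] [DecidableEq m] [DecidableEq n] in
private theorem E0_single {k : ℕ} (E : Fin k → Matrix m n ℂ) (j : Fin k) (f : Fin k → ℂ) :
    pl E (fun i => f i * (Pi.single j 1 : Fin k → ℂ) i) = f j • E j := by
  unfold pl
  beta_reduce
  rw [Finset.sum_eq_single j]
  · rw [Pi.single_eq_same, mul_one]
  · intro i _ hi
    rw [Pi.single_eq_of_ne hi, mul_zero, zero_smul]
  · intro h
    exact absurd (Finset.mem_univ j) h

omit [Fintype m] [Fintype n] [DecidableEq m] [DecidableEq n] in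
private theorem E0_single1 {k : ℕ} (E : Fin k → Matrix m n ℂ) (j : Fin k) :
    pl E (Pi.single j 1 : Fin k → ℂ) = E j := by
  have h := E0_single E j (fun _ => 1)
  simp only [one_mul, one_smul] at h
  exact h

/-- `E j` spans an invariant space of `tv B`. -/
private theorem E0_tv {k : ℕ} {E : Fin k → Matrix m n ℂ} (hE : Trip E) {β : Fin k → ℝ} (hβ : ∀ j, |β j| < 1)
    (hB : Ball (pl E (fun j => (β j : ℂ)))) (j : Fin k) :
    tv (pl E (fun j => (β j : ℂ))) * fromRows (E j) ((E j)ᴴ * E j) =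
      ((((1 - β j ^ 2) ^ (-(1 / 2) : ℝ) * (1 + β j) : ℝ)) : ℂ) • fromRows (E j) ((E j)ᴴ * E j) := by
  set B := pl E (fun j => (β j : ℂ)) with hBdef
  set c : ℝ := (1 - β j ^ 2) ^ (-(1 / 2) : ℝ) with hc
  have a1 : tva B * E j = (c : ℂ) • E j := by
    have h := tva_pl hE hβ (Pi.single j 1)
    rw [E0_single1, E0_single] at h
    exact h
  have a2 : E j * tvd B = (c : ℂ) • E j := by
    have h := tvd_pl hE hβ (Pi.single j 1)
    rw [E0_single1, E0_single] at h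
    exact h
  have a3 : tvd B * (E j)ᴴ = (c : ℂ) • (E j)ᴴ := by
    have h := congrArg conjTranspose a2
    rw [conjTranspose_mul, conjTranspose_smul, (tvd_posDef hB).isHermitian.eq] at h
    simpa using h
  have a4 : B * ((E j)ᴴ * E j) = (β j : ℂ) • E j := by
    have h := pl_mul_proj hE (fun j => (β j : ℂ)) (Pi.single j 1)
    rw [E0_single] at h
    rw [← h]
    congr 1
    rw [Finset.sum_eq_single j]
    · rw [Pi.single_eq_same, one_smul]
    · intro i _ hi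
      rw [Pi.single_eq_of_ne hi, zero_smul]
    · intro h
      exact absurd (Finset.mem_univ j) h
  have a5 : Bᴴ * E j = (β j : ℂ) • ((E j)ᴴ * E j) := by
    have h := pl_star_mul hE (fun j => (β j : ℂ)) (Pi.single j 1)
    rw [E0_single1] at h
    rw [hBdef, h, Finset.sum_eq_single j]
    · rw [Pi.single_eq_same, mul_one, Complex.conj_ofReal]
    · intro i _ hi
      rw [Pi.single_eq_of_ne hi, mul_zero, zero_smul]
    · intro h
      exact absurd (Finset.mem_univ j) h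
  have b1 : tva B * E j + tva B * B * ((E j)ᴴ * E j) = ((c * (1 + β j) : ℝ) : ℂ) • E j := by
    rw [Matrix.mul_assoc, a4, Matrix.mul_smul, a1, smul_smul, ← add_smul]
    congr 1
    push_cast
    ring
  have b2 : tvd B * Bᴴ * E j + tvd B * ((E j)ᴴ * E j) = ((c * (1 + β j) : ℝ) : ℂ) • ((E j)ᴴ * E j) := by
    rw [Matrix.mul_assoc, a5, Matrix.mul_smul, ← Matrix.mul_assoc (tvd B), a3, Matrix.smul_mul, smul_smul, ← add_smul]
    congr 1
    push_cast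
    ring
  unfold tv
  rw [fromBlocks_mul_fromRows, b1, b2]
  ext i l
  cases i <;> rfl

/-- powers of a unitary matrix are bounded -/
private theorem E0_bdd {k2 : Matrix n n ℂ} (h2 : k2ᴴ * k2 = 1) (N : ℕ) (i l : n) : ‖((k2ᴴ) ^ N) i l‖ ≤ 1 := by
  have hu : k2ᴴ ∈ Matrix.unitaryGroup n ℂ := by
    rw [Matrix.mem_unitaryGroup_iff, star_eq_conjTranspose, conjTranspose_conjTranspose]
    exact h2
  exact entry_norm_bound_of_unitary (pow_mem hu N) i l

private theorem E0_tendsto {ν : Type*} [Fintype ν] [DecidableEq ν] {H : Matrix ν ν ℂ} {Ψ : Matrix ν n ℂ} {k2 : Matrix n n ℂ}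
    (h2 : k2ᴴ * k2 = 1) {μ : ℝ} (hμ : 1 < μ) (h : H * Ψ = (μ : ℂ)⁻¹ • (Ψ * k2ᴴ)) (u : n → ℂ) :
    Filter.Tendsto (fun N : ℕ => H ^ N *ᵥ (Ψ *ᵥ u)) Filter.atTop (nhds 0) := by
  have hN : ∀ N : ℕ, H ^ N * Ψ = ((μ : ℂ)⁻¹) ^ N • (Ψ * (k2ᴴ) ^ N) := by
    intro N
    induction N with
    | zero => rw [pow_zero, pow_zero, pow_zero, Matrix.one_mul, Matrix.mul_one, one_smul]
    | succ N ih =>
      rw [pow_succ, Matrix.mul_assoc, h, Matrix.mul_smul, ← Matrix.mul_assoc, ih, Matrix.smul_mul, smul_smul,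
        Matrix.mul_assoc, ← pow_succ, ← pow_succ']
  have hμ0 : 0 < μ := lt_trans zero_lt_one hμ
  refine tendsto_pi_nhds.2 fun a => ?_
  have hb : ∀ N : ℕ, ‖(H ^ N *ᵥ (Ψ *ᵥ u)) a‖ ≤ (μ⁻¹) ^ N * ∑ i, ‖Ψ a i‖ * ∑ l, ‖u l‖ := by
    intro N
    rw [mulVec_mulVec, hN N, smul_mulVec, ← mulVec_mulVec, Pi.smul_apply, norm_smul, norm_pow, norm_inv,
      Complex.norm_real, Real.norm_eq_abs, abs_of_pos hμ0]
    refine mul_le_mul_of_nonneg_left ?_ (pow_nonneg (inv_nonneg.2 hμ0.le) N)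
    refine (norm_sum_le _ _).trans (Finset.sum_le_sum fun i _ => ?_)
    rw [norm_mul]
    refine mul_le_mul_of_nonneg_left ?_ (norm_nonneg _)
    refine (norm_sum_le _ _).trans (Finset.sum_le_sum fun l _ => ?_)
    rw [norm_mul]
    calc ‖((k2ᴴ) ^ N) i l‖ * ‖u l‖ ≤ 1 * ‖u l‖ := mul_le_mul_of_nonneg_right (E0_bdd h2 N i l) (norm_nonneg _)
      _ = ‖u l‖ := one_mul _
  refine squeeze_zero_norm hb ?_
  have h1 : Filter.Tendsto (fun N : ℕ => (μ⁻¹) ^ N) Filter.atTop (nhds 0) :=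
    tendsto_pow_atTop_nhds_zero_of_lt_one (inv_nonneg.2 hμ0.le) (inv_lt_one_of_one_lt₀ hμ)
  have h3 := h1.mul_const (∑ i, ‖Ψ a i‖ * ∑ l, ‖u l‖)
  rw [zero_mul] at h3
  exact h3

theorem rank_le_hyp {B : Matrix m n ℂ} (hB : Ball B) {k1 : Matrix m m ℂ} {k2 : Matrix n n ℂ} (h1 : k1ᴴ * k1 = 1)
    (h2 : k2ᴴ * k2 = 1) (hk : k1 * B = B * k2) {T G : Matrix (m ⊕ n) (m ⊕ n) ℂ} (hT : IsU T) (hG : IsU G)
    (h : T⁻¹ * G * T = tv B * fromBlocks k1 0 0 k2) : B.rank ≤ hyp G := by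
  obtain ⟨k, β, E, hE, hβ, hne, -, rfl, hint⟩ := trip_decomp (V := (⊤ : Submodule ℂ (Matrix m n ℂ)))
    ⟨fun A _ => Submodule.mem_top⟩ (Submodule.mem_top (x := B))
  have hint' := hint k1 k2 h1 h2 hk
  have hlt : ∀ j, β j < 1 := fun j => Trip.lt_one hE hne hβ hB j
  have habs : ∀ j, |β j| < 1 := fun j => by rw [abs_of_pos (hβ j)]; exact hlt j
  have h2' : k2 * k2ᴴ = 1 := mul_eq_one_comm.1 h2
  have hTu := hT.isUnit_det
  have hGu := hG.isUnit_det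
  let μ : Fin k → ℝ := fun j => (1 - β j ^ 2) ^ (-(1 / 2) : ℝ) * (1 + β j)
  have hμ : ∀ j, 1 < μ j := by
    intro j
    have e0 := hβ j
    have e1 := hlt j
    have e2 : 0 < 1 - β j ^ 2 := by nlinarith
    have e3 : 1 ≤ (1 - β j ^ 2) ^ (-(1 / 2) : ℝ) :=
      Real.one_le_rpow_of_pos_of_le_one_of_nonpos e2 (by nlinarith) (by norm_num)
    show 1 < (1 - β j ^ 2) ^ (-(1 / 2) : ℝ) * (1 + β j)
    nlinarith
  let Ph : Fin k → Matrix (m ⊕ n) n ℂ := fun j => fromRows (E j) ((E j)ᴴ * E j)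
  have hKE : ∀ j, fromBlocks k1 0 0 k2 * Ph j = Ph j * k2 := by
    intro j
    have g1 : k2 * (E j)ᴴ = (E j)ᴴ * k1 := by
      have g := congrArg conjTranspose (hint' j)
      rw [conjTranspose_mul, conjTranspose_mul] at g
      calc k2 * (E j)ᴴ = k2 * ((E j)ᴴ * k1ᴴ) * k1 := by
            rw [Matrix.mul_assoc, Matrix.mul_assoc, h1, Matrix.mul_one]
        _ = k2 * (k2ᴴ * (E j)ᴴ) * k1 := by rw [g]
        _ = (E j)ᴴ * k1 := by rw [← Matrix.mul_assoc k2, h2', Matrix.one_mul]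
    show fromBlocks k1 0 0 k2 * fromRows (E j) ((E j)ᴴ * E j) = fromRows (E j) ((E j)ᴴ * E j) * k2
    rw [fromBlocks_mul_fromRows, fromRows_mul, Matrix.zero_mul, Matrix.zero_mul, add_zero, zero_add, hint' j,
      ← Matrix.mul_assoc k2, g1, Matrix.mul_assoc, hint' j, Matrix.mul_assoc]
  have hGΨ : ∀ j, G * (T * Ph j) = (μ j : ℂ) • (T * Ph j * k2) := by
    intro j
    have e1 : G * T = T * (T⁻¹ * G * T) := by
      rw [Matrix.mul_assoc T⁻¹, ← Matrix.mul_assoc T, Matrix.mul_nonsing_inv _ hTu, Matrix.one_mul]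
    have e2 : tv (pl E (fun j => (β j : ℂ))) * Ph j = (μ j : ℂ) • Ph j := E0_tv hE habs hB j
    rw [← Matrix.mul_assoc, e1, h, Matrix.mul_assoc, Matrix.mul_assoc, hKE, ← Matrix.mul_assoc _ (Ph j), e2,
      Matrix.smul_mul, Matrix.mul_smul, Matrix.mul_assoc]
  have hinv : ∀ j, G⁻¹ * (T * Ph j) = (μ j : ℂ)⁻¹ • (T * Ph j * k2ᴴ) := by
    intro j
    have hμ0 : (μ j : ℂ) ≠ 0 := by
      have := (lt_trans zero_lt_one (hμ j)).ne'
      exact_mod_cast this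
    have e1 : T * Ph j = G * ((μ j : ℂ)⁻¹ • (T * Ph j * k2ᴴ)) := by
      rw [Matrix.mul_smul, ← Matrix.mul_assoc, hGΨ, Matrix.smul_mul, smul_smul, inv_mul_cancel₀ hμ0, one_smul,
        Matrix.mul_assoc, h2', Matrix.mul_one]
    calc G⁻¹ * (T * Ph j) = G⁻¹ * (G * ((μ j : ℂ)⁻¹ • (T * Ph j * k2ᴴ))) := by rw [← e1]
      _ = (μ j : ℂ)⁻¹ • (T * Ph j * k2ᴴ) := by
          rw [← Matrix.mul_assoc, Matrix.nonsing_inv_mul _ hGu, Matrix.one_mul]
  have hmem : ∀ j u, (T * Ph j) *ᵥ u ∈ unst G := fun j u => E0_tendsto h2 (hμ j) (hinv j) u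
  have hsum : (T * ∑ j, Ph j).rank ≤ hyp G := by
    unfold hyp Matrix.rank
    refine Submodule.finrank_mono ?_
    rintro _ ⟨u, rfl⟩
    rw [mulVecLin_apply, Matrix.mul_sum, sum_mulVec]
    exact Submodule.sum_mem _ fun j _ => hmem j u
  have he : fromCols (1 : Matrix m m ℂ) (0 : Matrix m n ℂ) * T⁻¹ * (T * ∑ j, Ph j) = pl E (fun _ => 1) := by
    rw [Matrix.mul_assoc, ← Matrix.mul_assoc T⁻¹, Matrix.nonsing_inv_mul _ hTu, Matrix.one_mul, Matrix.mul_sum]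
    unfold pl
    refine Finset.sum_congr rfl fun j _ => ?_
    show fromCols 1 0 * fromRows (E j) ((E j)ᴴ * E j) = _
    rw [fromCols_mul_fromRows, Matrix.one_mul, Matrix.zero_mul, add_zero, one_smul]
  rw [Trip.rank_pl hE (fun j => by exact_mod_cast (hβ j).ne'), ← Trip.rank_pl hE (c := fun _ => 1) (fun _ => one_ne_zero), ← he]
  exact (Matrix.rank_mul_le_right _ _).trans hsum

end Pool.Agent.MP_a98e84_gt.TG
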