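import Pool.Agent.Lib.MP_a98e84_gt.TG.D5
import Pool.Agent.Lib.MP_a98e84_gt.TG.E0
import Pool.Agent.Lib.MP_a98e84_gt.TG.B5

/-!
# TASK TG H1: the ball: every element of the group is regular

`V = ⊤`. `JStar ⊤` is clear. `maxRank ⊤ ≤ 1` for matrices with one column (`Matrix.rank_le_card_width`, `exists_max` or `csSup_le`). `normal_form` gives `B ≠ 0` (the only factor), so `rank B ≥ 1` (`B ≠ 0`), and `rank_le_hyp` (with `NF.conj`, `NF.mem`): `1 ≤ hyp (G i)`.
-/

set_option autoImplicit false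

namespace Pool.Agent.MP_a98e84_gt.TG

open Matrix
open scoped ComplexOrder

/-- all matrices with one column -/
def bv (n : ℕ) : ∀ _ : Unit, Submodule ℂ (Matrix (Fin n) (Fin 1) ℂ) := fun _ => ⊤

theorem bv_jstar (n : ℕ) (i : Unit) : JStar (bv n i) :=
  ⟨fun _ _ => Submodule.mem_top⟩

theorem bv_ne {n : ℕ} (hn : 0 < n) (i : Unit) : bv n i ≠ ⊥ := by
  intro h
  have h1 : (Matrix.of fun (_ : Fin n) (_ : Fin 1) => (1 : ℂ)) ∈ bv n i := Submodule.mem_top
  rw [h, Submodule.mem_bot] at h1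
  have h2 := congrFun (congrFun h1 ⟨0, hn⟩) 0
  simp at h2

private theorem H1_rank_pos {m n : Type*} [Fintype m] [Fintype n] [DecidableEq m] [DecidableEq n]
    {A : Matrix m n ℂ} (hA : A ≠ 0) : 1 ≤ A.rank := by
  by_contra h
  have h0 : A.rank = 0 := by omega
  apply hA
  rw [Matrix.rank, Submodule.finrank_eq_zero, LinearMap.range_eq_bot] at h0
  ext i j
  have h1 := congrFun (congrArg (fun f => f (Pi.single j 1)) h0) i
  simpa using h1

private theorem H1_max {n : ℕ} (i : Unit) : maxRank (bv n i) ≤ 1 := by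
  unfold maxRank
  refine csSup_le' ?_
  rintro r ⟨A, _, rfl⟩
  have h := Matrix.rank_le_width A
  simpa using h

theorem ball_reg {n : ℕ} (hn : 0 < n) {Γ : Type} [Group Γ]
    [MulAction Γ (dom (p := fun _ => n) (q := fun _ => 1) (bv n))]
    (hact : ∀ γ : Γ, ∃ G, Lifts (p := fun _ => n) (q := fun _ => 1) (bv n) γ G)
    (hfree : ∀ (γ : Γ) (W : dom (p := fun _ => n) (q := fun _ => 1) (bv n)), γ • W = W → γ = 1)
    [ProperlyDiscontinuousSMul Γ (dom (p := fun _ => n) (q := fun _ => 1) (bv n))]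
    [CompactSpace (Quotient (MulAction.orbitRel Γ (dom (p := fun _ => n) (q := fun _ => 1) (bv n))))] :
    ∀ γ : Γ, γ ≠ 1 → ∀ G, Lifts (p := fun _ => n) (q := fun _ => 1) (bv n) γ G → ∀ i, maxRank (bv n i) ≤ hyp (G i) := by
  intro γ hγ G hG i
  obtain ⟨T, B, k1, k2, hNF⟩ := normal_form (p := fun _ => n) (q := fun _ => 1) (bv n) (bv_jstar n)
    hact hfree hγ hG
  obtain ⟨j, hj⟩ := hNF.ne
  have hji : j = i := Subsingleton.elim _ _
  subst hji
  have h1 : (B j).rank ≤ hyp (G j) := rank_le_hyp (hNF.mem j).2 (hNF.u1 j) (hNF.u2 j) (hNF.comm j)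
    (hNF.isU j) (hG.1 j) (hNF.conj j)
  exact (H1_max j).trans ((H1_rank_pos hj).trans h1)

end Pool.Agent.MP_a98e84_gt.TG
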