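import Pool.Agent.Lib.MP_a98e84_gt.TG.H1
import Pool.Agent.Lib.MP_a98e84_gt.Mg.G005
import Pool.Agent.Lib.MP_a98e84_gt.Mg.G002
import Pool.Agent.Lib.MP_a98e84_gt.TG.E0

/-!
# TASK TG Main: assembly

(1) `low_orbit`. (2) `normal_form`, `high_orbit`: the hypothesis `hc` holds because `rank (B i) ≤ maxRank (V i)` (`le_maxRank`) and `rank (B i) ≤ hyp (G i)` (`rank_le_hyp`). (3) for `c < cs` by (1) with `γ = 1` (`one_smul`), for `c > cs` by (2) for a `γ ≠ 1` (`exists_ne_one`) and a lift of it.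
(4) `→`: contraposition of `not_per`. `←`: by (2), since one term of the sum is strictly smaller (`b i ≠ 0`, `a i > 0`) and the others are at most those of `cs`. (`ball_main`) `not_per` and `ball_reg`.
-/

set_option autoImplicit false

namespace Pool.Agent.MP_a98e84_gt.TG

open Matrix
open scoped ComplexOrder

variable {ι : Type} [Fintype ι] {p q : ι → ℕ}


theorem main [Nonempty ι] (V : ∀ i, Submodule ℂ (Matrix (Fin (p i)) (Fin (q i)) ℂ)) (hV : ∀ i, JStar (V i))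
    (hV0 : ∀ i, V i ≠ ⊥) (a b : ι → ℝ) (ha : ∀ i, 0 < a i) (hb : ∀ i, b i ≠ 0) (Γ : Type) [Group Γ]
    [MulAction Γ (dom V)] (hact : ∀ γ : Γ, ∃ G, Lifts V γ G) (hfree : ∀ (γ : Γ) (W : dom V), γ • W = W → γ = 1)
    [ProperlyDiscontinuousSMul Γ (dom V)] [CompactSpace (Quotient (MulAction.orbitRel Γ (dom V)))] :
    (∀ c, 0 < c → c < cs V a b → ∃ (x x' : ℝ → EE p q) (T : ℝ),
      Sol (dom V) {v | ∀ i, v i ∈ V i} (met a) (frm b) x x' ∧ (∀ t, met a (x t) (x' t) (x' t) / 2 = c) ∧ 0 < T ∧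
      ∀ t, x (t + T) = x t) ∧
    (∀ γ : Γ, γ ≠ 1 → ∀ G, Lifts V γ G → ∀ c, ∑ i, ((min (maxRank (V i)) (hyp (G i)) : ℕ) : ℝ) * b i ^ 2 / (8 * a i) < c →
      ∃ (x x' : ℝ → EE p q) (T : ℝ), Sol (dom V) {v | ∀ i, v i ∈ V i} (met a) (frm b) x x' ∧
        (∀ t, met a (x t) (x' t) (x' t) / 2 = c) ∧ 0 < T ∧
        ∀ t (h : x t ∈ dom V) (h' : x (t + T) ∈ dom V), γ • (⟨x t, h⟩ : dom V) = ⟨x (t + T), h'⟩) ∧
    (∀ c, 0 < c → c ≠ cs V a b → HasPer V a b Γ c) ∧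
    (HasPer V a b Γ (cs V a b) ↔ ∃ γ : Γ, γ ≠ 1 ∧ ∃ G, Lifts V γ G ∧ ∃ i, hyp (G i) < maxRank (V i)) := by
  have key : ∀ γ : Γ, γ ≠ 1 → ∀ G, Lifts V γ G → ∀ c,
      ∑ i, ((min (maxRank (V i)) (hyp (G i)) : ℕ) : ℝ) * b i ^ 2 / (8 * a i) < c →
      ∃ (x x' : ℝ → EE p q) (T : ℝ), Sol (dom V) {v | ∀ i, v i ∈ V i} (met a) (frm b) x x' ∧
        (∀ t, met a (x t) (x' t) (x' t) / 2 = c) ∧ 0 < T ∧
        ∀ t (h : x t ∈ dom V) (h' : x (t + T) ∈ dom V), γ • (⟨x t, h⟩ : dom V) = ⟨x (t + T), h'⟩ := by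
    intro γ hγ G hG c hc
    obtain ⟨T, B, k1, k2, hNF⟩ := normal_form V hV hact hfree hγ hG
    refine high_orbit V hV ha hG hNF (lt_of_le_of_lt ?_ hc)
    refine Finset.sum_le_sum fun i _ => ?_
    have h1 : (B i).rank ≤ maxRank (V i) := le_maxRank (hNF.mem i).1
    have h2 : (B i).rank ≤ hyp (G i) := rank_le_hyp (hNF.mem i).2 (hNF.u1 i) (hNF.u2 i)
      (hNF.comm i) (hNF.isU i) (hG.1 i) (hNF.conj i)
    have h3 : ((B i).rank : ℝ) ≤ ((min (maxRank (V i)) (hyp (G i)) : ℕ) : ℝ) := by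
      exact_mod_cast le_min h1 h2
    have h4 : (0 : ℝ) ≤ 8 * a i := by
      have := ha i
      linarith
    exact div_le_div_of_nonneg_right (mul_le_mul_of_nonneg_right h3 (sq_nonneg _)) h4
  have per : ∀ γ : Γ, γ ≠ 1 → ∀ G, Lifts V γ G → ∀ c,
      ∑ i, ((min (maxRank (V i)) (hyp (G i)) : ℕ) : ℝ) * b i ^ 2 / (8 * a i) < c → HasPer V a b Γ c := by
    intro γ hγ G hG c hc
    obtain ⟨x, x', T, h1, h2, h3, h4⟩ := key γ hγ G hG c hc
    exact ⟨x, x', T, h1, h2, h3, fun t h h' => ⟨γ, h4 t h h'⟩⟩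
  have hle : ∀ (r : ι → ℕ), (∀ i, r i ≤ maxRank (V i)) → ∀ i, ((r i : ℕ) : ℝ) * b i ^ 2 / (8 * a i) ≤
      (maxRank (V i) : ℝ) * b i ^ 2 / (8 * a i) := by
    intro r hr i
    have h3 : ((r i : ℕ) : ℝ) ≤ (maxRank (V i) : ℝ) := by exact_mod_cast hr i
    have h4 : (0 : ℝ) ≤ 8 * a i := by
      have := ha i
      linarith
    exact div_le_div_of_nonneg_right (mul_le_mul_of_nonneg_right h3 (sq_nonneg _)) h4
  refine ⟨fun c hc0 hc => low_orbit V hV ha hb hc0 hc, key, ?_, ?_, ?_⟩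
  · intro c hc0 hne
    rcases lt_or_gt_of_ne hne with hc | hc
    · obtain ⟨x, x', T, h1, h2, h3, h4⟩ := low_orbit V hV ha hb hc0 hc
      refine ⟨x, x', T, h1, h2, h3, fun t h h' => ⟨1, ?_⟩⟩
      rw [one_smul]
      exact Subtype.ext (h4 t).symm
    · obtain ⟨γ, hγ⟩ := exists_ne_one V hV hV0 Γ hact
      obtain ⟨G, hG⟩ := hact γ
      refine per γ hγ G hG c (lt_of_le_of_lt ?_ hc)
      exact Finset.sum_le_sum fun i _ => hle (fun i => min (maxRank (V i)) (hyp (G i)))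
        (fun i => min_le_left _ _) i
  · intro h
    by_contra hcon
    push Not at hcon
    exact not_per V hV hV0 ha hb hact hfree hcon h
  · rintro ⟨γ, hγ, G, hG, i, hi⟩
    refine per γ hγ G hG _ ?_
    refine Finset.sum_lt_sum (fun i _ => hle (fun i => min (maxRank (V i)) (hyp (G i)))
        (fun i => min_le_left _ _) i) ⟨i, Finset.mem_univ i, ?_⟩
    have h3 : ((min (maxRank (V i)) (hyp (G i)) : ℕ) : ℝ) < (maxRank (V i) : ℝ) := by
      exact_mod_cast lt_of_le_of_lt (min_le_right _ _) hi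
    have h4 : (0 : ℝ) < 8 * a i := by
      have := ha i
      linarith
    have h5 : 0 < b i ^ 2 := by
      have := hb i
      positivity
    exact div_lt_div_of_pos_right (mul_lt_mul_of_pos_right h3 h5) h4

theorem ball_main {n : ℕ} (hn : 0 < n) (a b : Unit → ℝ) (ha : ∀ i, 0 < a i) (hb : ∀ i, b i ≠ 0) (Γ : Type) [Group Γ]
    [MulAction Γ (dom (p := fun _ => n) (q := fun _ => 1) (bv n))]
    (hact : ∀ γ : Γ, ∃ G, Lifts (p := fun _ => n) (q := fun _ => 1) (bv n) γ G)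
    (hfree : ∀ (γ : Γ) (W : dom (p := fun _ => n) (q := fun _ => 1) (bv n)), γ • W = W → γ = 1)
    [ProperlyDiscontinuousSMul Γ (dom (p := fun _ => n) (q := fun _ => 1) (bv n))]
    [CompactSpace (Quotient (MulAction.orbitRel Γ (dom (p := fun _ => n) (q := fun _ => 1) (bv n))))] :
    ¬ HasPer (p := fun _ => n) (q := fun _ => 1) (bv n) a b Γ (cs (p := fun _ => n) (q := fun _ => 1) (bv n) a b) := by
  exact not_per (p := fun _ => n) (q := fun _ => 1) (bv n) (bv_jstar n) (bv_ne hn) ha hb hact hfree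
    (ball_reg hn hact hfree)

end Pool.Agent.MP_a98e84_gt.TG
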